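import Pool.Agent.W539.Ker.Inertia

/-!
# Forms which become negative under an operator
-/

open Finset

namespace Pool.Agent.N202.HZ

open Pool.Agent.W539.Ker

variable {M : Type*} [AddCommGroup M] [Module ℚ M] {B Bg : M →ₗ[ℚ] M →ₗ[ℚ] ℚ}

/-- A vector orthogonal to the negative vectors of a maximal orthogonal family has a nonnegative
square. -/
lemma nonneg_of_orth (hB : ∀ x y, B x y = B y x) {ι : Type*} [Fintype ι] {x : ι → M}
    (h : OM B x) {u : M} (hu : ∀ i, B (x i) (x i) < 0 → B u (x i) = 0) : 0 ≤ B u u := by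
  classical
  set p := ∑ i, (B u (x i) / B (x i) (x i)) • x i with hp
  have hpx : ∀ i, B p (x i) = B u (x i) := by
    intro i
    rw [hp, map_sum B, LinearMap.sum_apply, Finset.sum_eq_single i]
    · rw [map_smul, LinearMap.smul_apply, smul_eq_mul, div_mul_cancel₀ _ (h.ne i)]
    · intro j _ hj
      rw [map_smul, LinearMap.smul_apply, h.orth j i hj, smul_zero]
    · intro h0; exact absurd (Finset.mem_univ _) h0
  have hmax := h.max (u - p) (fun i => by rw [map_sub, LinearMap.sub_apply, hpx, sub_self])
  have hpp : B u p = ∑ i, B u (x i) * B u (x i) / B (x i) (x i) := by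
    rw [hp, map_sum]
    apply Finset.sum_congr rfl
    intro i _
    rw [map_smul, smul_eq_mul]; ring
  have hpp2 : B p p = B u p := by
    rw [hpp]
    have h1 : B p p = B (∑ i, (B u (x i) / B (x i) (x i)) • x i) p := by rw [← hp]
    rw [h1, map_sum B, LinearMap.sum_apply]
    apply Finset.sum_congr rfl
    intro i _
    rw [map_smul, LinearMap.smul_apply, smul_eq_mul, hB (x i) p, hpx]; ring
  have hle : 0 ≤ B u p := by
    rw [hpp]
    apply Finset.sum_nonneg
    intro i _
    by_cases hi : B (x i) (x i) < 0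
    · rw [hu i hi]; simp
    · exact div_nonneg (mul_self_nonneg _) (not_lt.1 hi)
  rw [map_sub, map_sub, LinearMap.sub_apply, LinearMap.sub_apply, hpp2, hB p u] at hmax
  linarith

/-- **The key estimate.** If an operator changes the sign of the form up to a form of rank at most
`r`, then there are at most `r` more positive than negative vectors in an orthogonal family. -/
theorem pos_le (hB : ∀ x y, B x y = B y x) (hg : ∀ x y, Bg x y = Bg y x) {Θ : M →ₗ[ℚ] M}
    {lam : ℚ} (hlam : 0 < lam) (h : ∀ x y, B (Θ x) (Θ y) = -lam * (B x y - Bg x y)) {r : ℕ}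
    (hr : ∀ m (x : Fin m → M), (∀ i, Bg (x i) (x i) ≠ 0) →
      (∀ i j, i ≠ j → Bg (x i) (x j) = 0) → m ≤ r)
    {ι : Type*} [Fintype ι] {x : ι → M} (hx : OM B x) :
    (univ.filter (fun i => 0 < B (x i) (x i))).card ≤
      (univ.filter (fun i => B (x i) (x i) < 0)).card + r := by
  classical
  obtain ⟨l, v, hv⟩ := exists_OM hg hr
  have hl : l ≤ r := hr l v hv.ne hv.orth
  by_contra hcon
  have hcon := not_le.1 hcon
  let comb : ({i // 0 < B (x i) (x i)} → ℚ) →ₗ[ℚ] M :=
    Fintype.linearCombination ℚ (fun i => x i.1)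
  have hcomb : ∀ c, comb c = ∑ i, c i • x i.1 :=
    fun c => Fintype.linearCombination_apply ℚ _ c
  let F : ({i // 0 < B (x i) (x i)} → ℚ) →ₗ[ℚ]
      ({i // B (x i) (x i) < 0} → ℚ) × (Fin l → ℚ) :=
    LinearMap.prod (LinearMap.pi (fun j => (B.flip (x j.1)) ∘ₗ Θ ∘ₗ comb))
      (LinearMap.pi (fun i => (Bg.flip (v i)) ∘ₗ comb))
  obtain ⟨c, hc, hc0⟩ : ∃ c, F c = 0 ∧ c ≠ 0 := by
    by_contra hno
    push Not at hno
    have hinj : Function.Injective F := by
      rw [← LinearMap.ker_eq_bot, LinearMap.ker_eq_bot']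
      intro c hc; exact hno c hc
    have h1 := LinearMap.finrank_le_finrank_of_injective hinj
    rw [Module.finrank_prod, Module.finrank_fintype_fun_eq_card,
      Module.finrank_fintype_fun_eq_card, Module.finrank_fintype_fun_eq_card,
      Fintype.card_subtype, Fintype.card_subtype, Fintype.card_fin] at h1
    omega
  set w := comb c with hw
  have hww : 0 < B w w := by
    have h1 : B w w = ∑ i, c i * c i * B (x i.1) (x i.1) := by
      rw [hw, hcomb, map_sum B, LinearMap.sum_apply]
      apply Finset.sum_congr rfl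
      intro i _
      rw [map_sum, Finset.sum_eq_single i]
      · rw [map_smul, map_smul, LinearMap.smul_apply, smul_eq_mul, smul_eq_mul]; ring
      · intro j _ hj
        rw [map_smul, map_smul, LinearMap.smul_apply,
          hx.orth _ _ (fun h0 => hj (Subtype.ext h0).symm), smul_zero, smul_zero]
      · intro h0; exact absurd (Finset.mem_univ _) h0
    rw [h1]
    obtain ⟨i, hi⟩ : ∃ i, c i ≠ 0 := by
      by_contra hall
      push Not at hall
      exact hc0 (funext hall)
    exact Finset.sum_pos' (fun j _ => mul_nonneg (mul_self_nonneg _) j.2.le)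
      ⟨i, Finset.mem_univ _, mul_pos (mul_self_pos.2 hi) i.2⟩
  have hg0 : Bg w w = 0 := by
    apply hv.max
    intro i
    exact congrFun (congrArg Prod.snd hc) i
  have hu : ∀ i, B (x i) (x i) < 0 → B (Θ w) (x i) = 0 := by
    intro i hi
    exact congrFun (congrArg Prod.fst hc) ⟨i, hi⟩
  have h1 := nonneg_of_orth hB hx hu
  rw [h, hg0, sub_zero] at h1
  nlinarith

/-- The sum of the signs of the squares is at most `r` in absolute value. -/
theorem abs_sum_le (hB : ∀ x y, B x y = B y x) (hg : ∀ x y, Bg x y = Bg y x) {Θ : M →ₗ[ℚ] M}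
    {lam : ℚ} (hlam : 0 < lam) (h : ∀ x y, B (Θ x) (Θ y) = -lam * (B x y - Bg x y)) {r : ℕ}
    (hr : ∀ m (x : Fin m → M), (∀ i, Bg (x i) (x i) ≠ 0) →
      (∀ i j, i ≠ j → Bg (x i) (x j) = 0) → m ≤ r)
    {ι : Type*} [Fintype ι] {x : ι → M} (hx : OM B x) :
    |∑ i, ((SignType.sign (B (x i) (x i)) : SignType) : ℤ)| ≤ r := by
  classical
  have h1 := pos_le hB hg hlam h hr hx
  have h2 := pos_le (B := -B) (Bg := -Bg) (Θ := Θ) (lam := lam) (r := r)
    (fun x y => by
      rw [LinearMap.neg_apply, LinearMap.neg_apply, LinearMap.neg_apply, LinearMap.neg_apply, hB])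
    (fun x y => by
      rw [LinearMap.neg_apply, LinearMap.neg_apply, LinearMap.neg_apply, LinearMap.neg_apply, hg])
    hlam (fun x y => by
      simp only [LinearMap.neg_apply]
      rw [h]; ring)
    (fun m x h3 h4 => hr m x (fun i => by
      have := h3 i
      simpa using this) (fun i j hij => by
      have := h4 i j hij
      simpa using this)) hx.neg
  simp only [LinearMap.neg_apply, neg_pos, neg_lt_zero] at h2
  have h3 : ∑ i, ((SignType.sign (B (x i) (x i)) : SignType) : ℤ) =
      ((univ.filter (fun i => 0 < B (x i) (x i))).card : ℤ) -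
        (univ.filter (fun i => B (x i) (x i) < 0)).card := by
    rw [Finset.card_filter, Finset.card_filter]
    push_cast
    rw [← Finset.sum_sub_distrib]
    apply Finset.sum_congr rfl
    intro i _
    rcases lt_trichotomy (B (x i) (x i)) 0 with h0 | h0 | h0
    · rw [if_neg (not_lt.2 h0.le), if_pos h0, sign_neg h0]; simp
    · exact absurd h0 (hx.ne i)
    · rw [if_pos h0, if_neg (not_lt.2 h0.le), sign_pos h0]; simp
  rw [h3, abs_le]
  omega

end Pool.Agent.N202.HZ
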