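import Pool.Agent.N202.HZ.Gdp
import Pool.Agent.Y129.Half.Growth

/-!
# The action of automorphisms on the form
-/

open CategoryTheory AlgebraicGeometry Finset

universe u v

namespace Pool.Agent.N202.HZ

open Module
open Pool.Agent.H914 Pool.Agent.H914.VarClass Pool.Agent.H914.VarClass.Obj
  Pool.Agent.H914.WeilCohomology Pool.Agent.H281R3.HT Pool.Agent.W552 Pool.Agent.W539.Ker
open Pool.Agent.Y129.Half (pw prj pfst psnd tau tau_prj rho)

variable {k : Type u} [Field k] {𝒱 : VarClass k} {ops : CycleOps 𝒱}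
  {W : WeilCohomology.{u, v} ops} {X Y Z : 𝒱.Obj} {D : X.Cycles} {f : Module.End W.K (W.H X)}

section

variable (G : Gd W X D f) {θ : X ⟶ X} (hθ : W.map θ (W.cl X D) = W.cl X D)

include hθ in
lemma map_L (m : ℕ) (x : W.H X) : W.map θ (((LinearMap.mulLeft W.K (W.cl X D)) ^ m) x) =
    ((LinearMap.mulLeft W.K (W.cl X D)) ^ m) (W.map θ x) := by
  induction m generalizing x with
  | zero => simp
  | succ m ih =>
    rw [pow_succ, Module.End.mul_apply, ih, LinearMap.mulLeft_apply, map_mul, hθ,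
      Module.End.mul_apply, LinearMap.mulLeft_apply]

include G hθ

lemma map_top {c : W.H X} (hc : c ∈ W.gr X (2 * X.dim)) : W.map θ c = c := by
  obtain ⟨a, ha, rfl⟩ := (G.ls.hHL 0 (by omega)).2 c (by rwa [Nat.sub_zero])
  rw [W.gr_zero] at ha
  obtain ⟨q, rfl⟩ := Submodule.mem_span_singleton.1 ha
  rw [map_L hθ, map_smul, map_one]

lemma tr_map (c : W.H X) : W.tr X (W.map θ c) = W.tr X c := by
  refine gr_induction (W.isInternal X) (p := fun c => W.tr X (W.map θ c) = W.tr X c) ?_ ?_ c
  · intro i c hc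
    by_cases hi : i = 2 * X.dim
    · subst hi
      rw [map_top G hθ hc]
    · rw [W.tr_eq_zero (W.map_mem θ hc) hi, W.tr_eq_zero hc hi]
  · intro a b ha hb
    rw [map_add, map_add, map_add, ha, hb]

lemma map_wop (x : W.H X) : wop W X D f (W.map θ x) = W.map θ (wop W X D f x) := by
  refine lef_induction' (W.isInternal X) G.ls.hL G.ls.hbd G.ls.hHL
    (p := fun x => wop W X D f (W.map θ x) = W.map θ (wop W X D f x)) ?_ ?_ x
  · intro a b ha hb
    rw [map_add, map_add, map_add, ha, hb, map_add]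
  · intro i hi a ha hp j
    have hp' : ((LinearMap.mulLeft W.K (W.cl X D)) ^ (X.dim - i + 1)) (W.map θ a) = 0 := by
      rw [← map_L hθ, hp, map_zero]
    by_cases hj : X.dim - i < j
    · rw [map_L hθ, L_pow_gt hp hj, L_pow_gt hp' hj, map_zero, map_zero]
    · push Not at hj
      rw [map_L hθ, wop, G.ls.w_L_pow hi (W.map_mem θ ha) hp' hj, G.ls.w_L_pow hi ha hp hj,
        map_smul, map_L hθ]

lemma map_st (x : W.H X) : st W X D f (W.map θ x) = W.map θ (st W X D f x) := by
  refine gr_induction (W.isInternal X)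
    (p := fun x => st W X D f (W.map θ x) = W.map θ (st W X D f x)) ?_ ?_ x
  · intro i x hx
    rw [st_apply (W.map_mem θ hx), st_apply hx, map_smul, map_wop G hθ]
  · intro a b ha hb
    rw [map_add, map_add, map_add, ha, hb, map_add]

/-- The form is invariant under automorphisms. -/
lemma bf_map (x y : W.H X) : bf W X D f (W.map θ x) (W.map θ y) = bf W X D f x y := by
  rw [bf_apply, bf_apply, map_st G hθ, ← map_mul, tr_map G hθ]

end

/-- The class of the graph of a morphism. -/
noncomputable def gcl (W : WeilCohomology.{u, v} ops) {X Y : 𝒱.Obj} (θ : X ⟶ Y) :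
    W.H (Y.prod X) := W.push (Obj.lift θ (𝟙 X)) (1 : W.H X)

lemma gcl_AS (θ : X ⟶ Y) : AS W (Y.prod X) (gcl W θ) := AS.one.push _

lemma corr_gcl (θ : X ⟶ Y) : W.corr (gcl W θ) = (W.map θ).toLinearMap := by
  apply LinearMap.ext
  intro a
  rw [corr_apply, gcl, ← W.push_mul, one_mul, ← W.map_comp, ← W.push_comp,
    Obj.lift_fst, Obj.lift_snd, W.push_id]
  rfl

lemma hm_map (θ : X ⟶ X) : Hm W 0 (W.map θ).toLinearMap := by
  apply gr_ext (W.isInternal X)
  intro i a ha
  rw [LinearMap.comp_apply, AlgHom.toLinearMap_apply, Fr.wt_gr (W.map_mem θ ha),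
    Int.cast_zero, zero_smul, add_zero, LinearMap.comp_apply, AlgHom.toLinearMap_apply,
    Fr.wt_gr ha, map_smul]

end Pool.Agent.N202.HZ
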