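import Pool.Agent.W539.Ker.Defs

/-!
# The numbers of positive and of negative squares of the pairings of the standard conjecture of
# Hodge type on the powers of a variety
-/

open CategoryTheory AlgebraicGeometry

universe u v

namespace Pool.Agent.N202.HZ

open Pool.Agent.H914 Pool.Agent.H914.VarClass Pool.Agent.H914.VarClass.Obj
  Pool.Agent.H281R3.HT Pool.Agent.W539.Ker

variable {k : Type u} [Field k] {𝒱 : VarClass k} {ops : CycleOps 𝒱}

/-- The number of positive squares of the pairing `⟨·, ·⟩` on the primitive cycles of codimension
`n` on `X`: the largest number of pairwise orthogonal primitive cycles with positive squares. -/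
noncomputable def nPos (W : WeilCohomology.{u, v} ops) (X : 𝒱.Obj) (D : X.Cycles) (n : ℕ) : ℕ :=
  sSup {r | HasFamily W X D n 1 r}

/-- The number of negative squares of the pairing `⟨·, ·⟩` on the primitive cycles of codimension
`n` on `X`: the largest number of pairwise orthogonal primitive cycles with negative squares. -/
noncomputable def nNeg (W : WeilCohomology.{u, v} ops) (X : 𝒱.Obj) (D : X.Cycles) (n : ℕ) : ℕ :=
  sSup {r | HasFamily W X D n (-1) r}

/-- The number of all squares: the sum over all codimensions `n ≤ dim X / 2` of the rank of the
pairing on the primitive cycles of codimension `n`. -/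
noncomputable def total (W : WeilCohomology.{u, v} ops) (X : 𝒱.Obj) (D : X.Cycles) : ℕ :=
  ∑ n ∈ Finset.range (X.dim / 2 + 1), (nPos W X D n + nNeg W X D n)

/-- The sum over all codimensions `n ≤ dim X / 2` of the absolute values of the signatures of the
pairings, that is of the differences of the numbers of positive and of negative squares. -/
noncomputable def imbalance (W : WeilCohomology.{u, v} ops) (X : 𝒱.Obj) (D : X.Cycles) : ℕ :=
  ∑ n ∈ Finset.range (X.dim / 2 + 1), ((nPos W X D n : ℤ) - nNeg W X D n).natAbs

/-- The power `P ^ (n + 1)` of a polarized variety. -/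
noncomputable def power (ops : CycleOps 𝒱) (P : Polarized 𝒱) : ℕ → Polarized 𝒱
  | 0 => P
  | n + 1 => (power ops P n).prod ops P

/-- The standard conjecture of Hodge type for `X` and the divisor `D`, with numerical
equivalence: for `2 j ≤ dim X` every primitive cycle `z` of codimension `j` which is not
numerically equivalent to zero satisfies `0 < (-1) ^ j deg (z · z · D ^ (dim X - 2 j))`. -/
def HodgeTypeNum (W : WeilCohomology.{u, v} ops) (X : 𝒱.Obj) (D : X.Cycles) : Prop :=
  ∀ j, 2 * j ≤ X.dim → ∀ z, Primitive W X D j z →
    (∃ w, X.IsCyc (X.dim - j) w ∧ X.V.degCycle (ops.mul z w) ≠ 0) → 0 < pairing ops X D j z z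

/-- The cycle `D` on `X` is a divisor with positive self-intersection number `deg (D ^ dim X)`,
which satisfies hard Lefschetz and the Lefschetz standard conjecture. Nothing is assumed about
positivity of other cycles. (The example: `D` is ample, and `X` satisfies the Lefschetz standard
conjecture.) -/
structure Good (W : WeilCohomology.{u, v} ops) (P : Polarized 𝒱) : Prop where
  isCyc : P.X.IsCyc 1 P.D
  hardLefschetz : HardLefschetz W P.X P.D
  lefschetzB : LefschetzB W P.X P.D
  deg_pos : 0 < P.X.V.degCycle (divPow ops P.D P.X.dim P.X.V.fundCycle)

end Pool.Agent.N202.HZ
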