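import Pool.Agent.W539.Ker.Ops
import Pool.Agent.Y129.Half.CS

/-!
# Algebraic operators which change the sign of the form
-/

open CategoryTheory AlgebraicGeometry Finset

universe u v

namespace Pool.Agent.N202.HZ

open Module
open Pool.Agent.H914 Pool.Agent.H914.VarClass Pool.Agent.H914.VarClass.Obj
  Pool.Agent.H914.WeilCohomology Pool.Agent.H281R3.HT Pool.Agent.W552 Pool.Agent.W539.Ker

variable {k : Type u} [Field k] {𝒱 : VarClass k} {ops : CycleOps 𝒱}
  {W : WeilCohomology.{u, v} ops} {X Y Z : 𝒱.Obj}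

/-- The algebraic operator `Θ` changes the sign of the form, up to the algebraic idempotent
`g`. -/
structure Neu (W : WeilCohomology.{u, v} ops) (X : 𝒱.Obj) (D : X.Cycles)
    (f : Module.End W.K (W.H X)) (lam : ℚ) (g Θ : Module.End W.K (W.H X)) : Prop where
  ag : AOp W X X g
  aT : AOp W X X Θ
  hg : Hm W 0 g
  hT : Hm W 0 Θ
  idem : g ∘ₗ g = g
  form : ∀ a b, bf W X D f (Θ a) (Θ b) = -(lam : W.K) * (bf W X D f a b - bf W X D f (g a) b)

/-- The rank one operator `x ↦ ⟨x, y⟩ z`. -/
noncomputable def rk1 (W : WeilCohomology.{u, v} ops) {X : 𝒱.Obj} (D : X.Cycles)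
    (f : Module.End W.K (W.H X)) (y z : W.H X) : Module.End W.K (W.H X) :=
  ((bf W X D f).flip y).smulRight z

lemma rk1_apply {D : X.Cycles} {f : Module.End W.K (W.H X)} (y z x : W.H X) :
    rk1 W D f y z x = bf W X D f x y • z := rfl

lemma corr_ext_AS {x : W.H X} {y : W.H Y} (hy : AS W Y y) (z : W.H X) :
    W.corr (ext W x y) z = W.tr X (x * z) • y := by
  rw [corr_apply, H281R3.HT.ext, mul_assoc, AS.comm (hy.map (snd X Y)), ← mul_assoc, ← map_mul,
    W.push_snd]

lemma par_AS {y : W.H X} (hy : AS W X y) : par (W.isInternal X) y = y := by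
  refine AS.ind (p := fun y => par (W.isInternal X) y = y) ?_ ?_ hy
  · intro j y hy
    rw [par, scal_apply _ _ (alg_gr hy), pow_mul]
    simp
  · intro y y' hy hy'
    rw [map_add, hy, hy']

section

variable {D : X.Cycles} {f : Module.End W.K (W.H X)}

lemma aop_rk1 (F : Fr W X D f) {y z : W.H X} (hy : AS W X y) (hz : AS W X z) :
    AOp W X X (rk1 W D f y z) := by
  refine ⟨ext W (st W X D f y) z, (F.st_AS hy).ext hz, ?_⟩
  apply LinearMap.ext
  intro x
  rw [corr_ext_AS hz, rk1_apply, bf_apply, AS.comm (F.st_AS hy)]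

lemma hm_rk1 (G : Gd W X D f) {y z : W.H X} {m : W.K}
    (hy : wt (W.isInternal X) X.dim y = m • y) (hz : wt (W.isInternal X) X.dim z = m • z) :
    Hm W 0 (rk1 W D f y z) := by
  apply LinearMap.ext
  intro x
  rw [LinearMap.comp_apply, rk1_apply, map_smul, hz, LinearMap.add_apply, LinearMap.comp_apply,
    rk1_apply, G.wt_self, hy, map_smul, LinearMap.smul_apply, smul_eq_mul, smul_smul,
    Int.cast_zero, zero_smul, add_zero, mul_comm]

lemma sy_AS (G : Gd W X D f) {y : W.H X} (hy : AS W X y) (x : W.H X) :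
    bf W X D f y x = bf W X D f x y := by
  rw [G.sy x y, par_AS hy]

end

/-- The two orthogonal classes of opposite signs. -/
structure Pr (W : WeilCohomology.{u, v} ops) (X : 𝒱.Obj) (D : X.Cycles)
    (f : Module.End W.K (W.H X)) (a b : ℚ) (y z : W.H X) : Prop where
  gd : Gd W X D f
  ay : AS W X y
  az : AS W X z
  wt : ∃ m : W.K, wt (W.isInternal X) X.dim y = m • y ∧ H914.wt (W.isInternal X) X.dim z = m • z
  ha : 0 < a
  hb : 0 < b
  yy : bf W X D f y y = (b : W.K)
  zz : bf W X D f z z = -(a : W.K)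
  yz : bf W X D f y z = 0

section

variable {D : X.Cycles} {f : Module.End W.K (W.H X)} {a b : ℚ} {y z : W.H X}
  (P : Pr W X D f a b y z)

/-- The idempotent which kills the two classes. -/
noncomputable def prR (W : WeilCohomology.{u, v} ops) {X : 𝒱.Obj} (D : X.Cycles)
    (f : Module.End W.K (W.H X)) (a b : ℚ) (y z : W.H X) : Module.End W.K (W.H X) :=
  1 - ((b⁻¹ : ℚ) : W.K) • rk1 W D f y y + ((a⁻¹ : ℚ) : W.K) • rk1 W D f z z

/-- The operator which exchanges the two classes. -/
noncomputable def prT (W : WeilCohomology.{u, v} ops) {X : 𝒱.Obj} (D : X.Cycles)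
    (f : Module.End W.K (W.H X)) (y z : W.H X) : Module.End W.K (W.H X) :=
  rk1 W D f y z + rk1 W D f z y

lemma prR_apply (x : W.H X) : prR W D f a b y z x = x - ((b : W.K)⁻¹ * bf W X D f x y) • y +
    ((a : W.K)⁻¹ * bf W X D f x z) • z := by
  rw [prR, LinearMap.add_apply, LinearMap.sub_apply, Module.End.one_apply, LinearMap.smul_apply,
    LinearMap.smul_apply, rk1_apply, rk1_apply, smul_smul, smul_smul, Rat.cast_inv, Rat.cast_inv]

lemma prT_apply (x : W.H X) :
    prT W D f y z x = bf W X D f x y • z + bf W X D f x z • y := rfl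

include P

lemma Pr.zy : bf W X D f z y = 0 := by rw [sy_AS P.gd P.az, P.yz]

lemma Pr.aK : (a : W.K) ≠ 0 := by exact_mod_cast P.ha.ne'

lemma Pr.bK : (b : W.K) ≠ 0 := by exact_mod_cast P.hb.ne'

lemma Pr.Ry (x : W.H X) : bf W X D f (prR W D f a b y z x) y = 0 := by
  rw [prR_apply, map_add, map_sub, map_smul, map_smul, LinearMap.add_apply, LinearMap.sub_apply,
    LinearMap.smul_apply, LinearMap.smul_apply, P.yy, P.zy, smul_eq_mul, smul_eq_mul, mul_zero,
    add_zero]
  have := P.bK
  field_simp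
  ring

lemma Pr.Rz (x : W.H X) : bf W X D f (prR W D f a b y z x) z = 0 := by
  rw [prR_apply, map_add, map_sub, map_smul, map_smul, LinearMap.add_apply, LinearMap.sub_apply,
    LinearMap.smul_apply, LinearMap.smul_apply, P.zz, P.yz, smul_eq_mul, smul_eq_mul, mul_zero,
    sub_zero]
  have := P.aK
  field_simp
  ring

lemma Pr.yR (x : W.H X) : bf W X D f y (prR W D f a b y z x) = 0 := by
  rw [sy_AS P.gd P.ay, P.Ry]

lemma Pr.zR (x : W.H X) : bf W X D f z (prR W D f a b y z x) = 0 := by
  rw [sy_AS P.gd P.az, P.Rz]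

lemma Pr.RT (x x' : W.H X) :
    bf W X D f (prR W D f a b y z x) (prT W D f y z x') = 0 := by
  rw [prT_apply, map_add, map_smul, map_smul, P.Ry, P.Rz, smul_zero, smul_zero, add_zero]

lemma Pr.TR (x x' : W.H X) :
    bf W X D f (prT W D f y z x) (prR W D f a b y z x') = 0 := by
  rw [prT_apply, map_add, map_smul, map_smul, LinearMap.add_apply, LinearMap.smul_apply,
    LinearMap.smul_apply, P.yR, P.zR, smul_zero, smul_zero, add_zero]

lemma Pr.RR (x x' : W.H X) : bf W X D f (prR W D f a b y z x) (prR W D f a b y z x') =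
    bf W X D f (prR W D f a b y z x) x' := by
  conv_lhs => rw [prR_apply x']
  rw [map_add, map_sub, map_smul, map_smul, P.Ry, P.Rz, smul_zero, smul_zero, sub_zero, add_zero]

lemma Pr.TT (x x' : W.H X) : bf W X D f (prT W D f y z x) (prT W D f y z x') =
    -((a * b : ℚ) : W.K) * (bf W X D f x x' - bf W X D f (prR W D f a b y z x) x') := by
  have ha := P.aK
  have hb := P.bK
  rw [prT_apply, prT_apply, prR_apply]
  simp only [map_add, map_sub, map_smul, LinearMap.add_apply, LinearMap.sub_apply,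
    LinearMap.smul_apply, smul_eq_mul, P.yy, P.zz, P.yz, P.zy, sy_AS P.gd P.ay x',
    sy_AS P.gd P.az x', Rat.cast_mul]
  field_simp
  ring

lemma Pr.idem : prR W D f a b y z ∘ₗ prR W D f a b y z = prR W D f a b y z := by
  apply LinearMap.ext
  intro x
  rw [LinearMap.comp_apply, prR_apply (prR W D f a b y z x), P.Ry, P.Rz, mul_zero, mul_zero,
    zero_smul, zero_smul, sub_zero, add_zero]

lemma Pr.aR : AOp W X X (prR W D f a b y z) :=
  (AOp.ratSub.sub AOp.one ((aop_rk1 P.gd.fr P.ay P.ay).smul _)).add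
    ((aop_rk1 P.gd.fr P.az P.az).smul _)

lemma Pr.aT : AOp W X X (prT W D f y z) :=
  (aop_rk1 P.gd.fr P.ay P.az).add (aop_rk1 P.gd.fr P.az P.ay)

lemma Pr.hR : Hm W 0 (prR W D f a b y z) := by
  obtain ⟨m, hy, hz⟩ := P.wt
  have h1 : prR W D f a b y z = LinearMap.id + (-((b⁻¹ : ℚ) : W.K)) • rk1 W D f y y +
      ((a⁻¹ : ℚ) : W.K) • rk1 W D f z z := by
    rw [prR]
    apply LinearMap.ext
    intro x
    simp only [LinearMap.add_apply, LinearMap.sub_apply, LinearMap.smul_apply,
      Module.End.one_apply, LinearMap.id_apply]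
    module
  rw [h1]
  exact (Hm.one.add ((hm_rk1 P.gd hy hy).smul _)).add ((hm_rk1 P.gd hz hz).smul _)

lemma Pr.hT : Hm W 0 (prT W D f y z) := by
  obtain ⟨m, hy, hz⟩ := P.wt
  exact (hm_rk1 P.gd hy hz).add (hm_rk1 P.gd hz hy)

/-- The idempotent has corank at least two. -/
lemma Pr.finrank : finrank W.K (LinearMap.range (prR W D f a b y z)) + 2 ≤
    finrank W.K (W.H X) := by
  have h1 := LinearMap.finrank_range_add_finrank_ker (prR W D f a b y z)
  have hker : ∀ x, prR W D f a b y z x = 0 ↔ x ∈ LinearMap.ker (prR W D f a b y z) :=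
    fun x => Iff.rfl
  have hy : prR W D f a b y z y = 0 := by
    rw [prR_apply, P.yy, P.yz, inv_mul_cancel₀ P.bK, one_smul, mul_zero, zero_smul, sub_self,
      add_zero]
  have hz : prR W D f a b y z z = 0 := by
    rw [prR_apply, P.zz, P.zy, mul_zero, zero_smul, mul_neg, inv_mul_cancel₀ P.aK, neg_smul,
      one_smul, sub_zero, add_neg_cancel]
  have hli : LinearIndependent W.K ![(⟨y, hy⟩ : LinearMap.ker (prR W D f a b y z)), ⟨z, hz⟩] := by
    rw [LinearIndependent.pair_iff]
    intro s t hst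
    have h2 : s • y + t • z = 0 := congrArg Subtype.val hst
    constructor
    · have h3 := congrArg (fun x => bf W X D f x y) h2
      simp only [map_add, map_smul, LinearMap.add_apply, LinearMap.smul_apply, P.yy, P.zy,
        smul_eq_mul, mul_zero, add_zero, map_zero, LinearMap.zero_apply] at h3
      exact (mul_eq_zero.1 h3).resolve_right P.bK
    · have h3 := congrArg (fun x => bf W X D f x z) h2
      simp only [map_add, map_smul, LinearMap.add_apply, LinearMap.smul_apply, P.yz, P.zz,
        smul_eq_mul, mul_zero, zero_add, map_zero, LinearMap.zero_apply] at h3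
      exact (mul_eq_zero.1 h3).resolve_right (neg_ne_zero.2 P.aK)
  have h2 := hli.fintype_card_le_finrank
  rw [Fintype.card_fin] at h2
  omega

end

/-- The start of the induction. -/
lemma Neu.base (D : X.Cycles) (f : Module.End W.K (W.H X)) (lam : ℚ) : Neu W X D f lam 1 0 where
  ag := AOp.one
  aT := AOp.zero
  hg := Hm.one
  hT := Hm.zero
  idem := rfl
  form a b := by
    rw [LinearMap.zero_apply, map_zero, LinearMap.zero_apply, Module.End.one_apply, sub_self,
      mul_zero]

lemma Hm.extOp {u : Module.End W.K (W.H X)} {u' : Module.End W.K (W.H Y)} (h : Hm W 0 u)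
    (h' : Hm W 0 u') : Hm W 0 (extOp W u u') := by
  apply LinearMap.ext
  intro c
  refine W.kunneth_induction (p := fun c => (wt (W.isInternal (X.prod Y)) (X.prod Y).dim ∘ₗ
    H914.extOp W u u') c = (H914.extOp W u u' ∘ₗ wt (W.isInternal (X.prod Y)) (X.prod Y).dim +
      ((0 : ℤ) : W.K) • H914.extOp W u u') c) ?_ ?_ c
  · intro a b ha hb
    rw [map_add, map_add, ha, hb]
  · intro i j a _ b _
    have e1 := h.apply a
    have e2 := h'.apply b
    rw [Int.cast_zero, zero_smul, add_zero] at e1 e2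
    rw [Int.cast_zero, zero_smul, add_zero, LinearMap.comp_apply, LinearMap.comp_apply,
      wt_prod, extOp_tmul, extSum_tmul, extSum_tmul, map_add, extOp_tmul, extOp_tmul, e1, e2]

/-- The induction step for the form, on products of classes. -/
lemma step_form {D : X.Cycles} {f : Module.End W.K (W.H X)} {a b : ℚ}
    {g Θ : Module.End W.K (W.H X)} (N : Neu W X D f (a * b) g Θ) {E : Y.Cycles}
    {f' : Module.End W.K (W.H Y)} {y z : W.H Y} (P : Pr W Y E f' a b y z)
    {BB : W.H (X.prod Y) →ₗ[W.K] W.H (X.prod Y) →ₗ[W.K] W.K}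
    (hBB : ∀ p p' q q', BB (W.map (fst X Y) p * W.map (snd X Y) q)
      (W.map (fst X Y) p' * W.map (snd X Y) q') = bf W X D f p p' * bf W Y E f' q q')
    {T G : W.H (X.prod Y) →ₗ[W.K] W.H (X.prod Y)}
    (hT : ∀ p q, T (W.map (fst X Y) p * W.map (snd X Y) q) =
      W.map (fst X Y) (Θ p) * W.map (snd X Y) (prR W E f' a b y z q) +
        W.map (fst X Y) p * W.map (snd X Y) (prT W E f' y z q))
    (hG : ∀ p q, G (W.map (fst X Y) p * W.map (snd X Y) q) =
      W.map (fst X Y) (g p) * W.map (snd X Y) (prR W E f' a b y z q)) (c c' : W.H (X.prod Y)) :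
    BB (T c) (T c') = -((a * b : ℚ) : W.K) * (BB c c' - BB (G c) c') := by
  refine W.kunneth_induction (p := fun c => BB (T c) (T c') =
    -((a * b : ℚ) : W.K) * (BB c c' - BB (G c) c')) ?_ ?_ c
  · intro c d hc hd
    rw [map_add, map_add, LinearMap.add_apply, hc, hd, map_add, map_add, map_add,
      LinearMap.add_apply, LinearMap.add_apply]
    ring
  intro i j x _ w _
  refine W.kunneth_induction (p := fun c' => BB (T (W.map (fst X Y) x * W.map (snd X Y) w))
    (T c') = -((a * b : ℚ) : W.K) * (BB (W.map (fst X Y) x * W.map (snd X Y) w) c' -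
      BB (G (W.map (fst X Y) x * W.map (snd X Y) w)) c')) ?_ ?_ c'
  · intro c d hc hd
    rw [map_add, map_add, hc, hd, map_add, map_add]
    ring
  intro i' j' x' _ w' _
  rw [hT, hT, hG, map_add, map_add, LinearMap.add_apply, LinearMap.add_apply, hBB, hBB,
    hBB, hBB, hBB, hBB, P.RT, P.TR, P.RR, P.TT, N.form]
  ring

/-- **The induction step.** -/
lemma Neu.step {D : X.Cycles} {f : Module.End W.K (W.H X)} {a b : ℚ} {g Θ : Module.End W.K (W.H X)}
    (F : Fr W X D f) (N : Neu W X D f (a * b) g Θ) {E : Y.Cycles} {f' : Module.End W.K (W.H Y)}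
    {y z : W.H Y} (P : Pr W Y E f' a b y z) :
    Neu W (X.prod Y) (ops.pull (fst X Y) D + ops.pull (snd X Y) E) (extSum W f f') (a * b)
      (extOp W g (prR W E f' a b y z)) (extOp W Θ (prR W E f' a b y z) +
        extOp W 1 (prT W E f' y z)) := by
  have h1 : AOp W (X.prod Y) (X.prod Y) (extOp W g (prR W E f' a b y z)) := N.ag.ext P.aR
  have h2 : AOp W (X.prod Y) (X.prod Y) (extOp W Θ (prR W E f' a b y z) +
        extOp W 1 (prT W E f' y z)) := (N.aT.ext P.aR).add (AOp.one.ext P.aT)
  have h3 : Hm W 0 (extOp W g (prR W E f' a b y z)) := Hm.extOp N.hg P.hR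
  have h4 : Hm W 0 (extOp W Θ (prR W E f' a b y z) + extOp W 1 (prT W E f' y z)) :=
    (Hm.extOp N.hT P.hR).add (Hm.extOp Hm.one P.hT)
  have h5 : extOp W g (prR W E f' a b y z) * extOp W g (prR W E f' a b y z) =
      extOp W g (prR W E f' a b y z) := by
    rw [extOp_mul]
    congr 1
    · exact N.idem
    · exact P.idem
  refine ⟨h1, h2, h3, h4, h5, ?_⟩
  refine step_form N P (fun p p' q q' => F.bf_ext P.gd.fr p p' q q') (fun p q => ?_)
    (fun p q => ?_)
  · rw [LinearMap.add_apply, extOp_tmul, extOp_tmul, Module.End.one_apply]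
  · rw [extOp_tmul]

end Pool.Agent.N202.HZ
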