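import Pool.Agent.N202.HZ.Abs
import Pool.Agent.N202.HZ.Fam2
import Pool.Agent.N202.HZ.Neu

/-!
# The bound for the signatures
-/

open CategoryTheory AlgebraicGeometry Finset

universe u v

namespace Pool.Agent.N202.HZ

open Module
open Pool.Agent.H914 Pool.Agent.H914.VarClass Pool.Agent.H914.VarClass.Obj
  Pool.Agent.H914.WeilCohomology Pool.Agent.H281R3.HT Pool.Agent.W552 Pool.Agent.W539.Ker

variable {k : Type u} [Field k] {𝒱 : VarClass k} {ops : CycleOps 𝒱}
  {W : WeilCohomology.{u, v} ops} {X Y Z : 𝒱.Obj}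

/-- The cohomology as a rational vector space. -/
noncomputable local instance ratMod (X : 𝒱.Obj) : Module ℚ (W.H X) :=
  Module.compHom (W.H X) (algebraMap ℚ W.K)

lemma rat_smul (q : ℚ) (x : W.H X) : q • x = (q : W.K) • x := by
  change (algebraMap ℚ W.K q) • x = _
  rw [eq_ratCast]

/-- The algebraic classes of weight `m`. -/
def AM (W : WeilCohomology.{u, v} ops) (X : 𝒱.Obj) (m : ℤ) : Submodule ℚ (W.H X) where
  carrier := {x | AS W X x ∧ wt (W.isInternal X) X.dim x = (m : W.K) • x}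
  add_mem' := by
    rintro x y ⟨hx, hx'⟩ ⟨hy, hy'⟩
    exact ⟨hx.add hy, by rw [map_add, hx', hy', smul_add]⟩
  zero_mem' := ⟨AS.zero, by rw [map_zero, smul_zero]⟩
  smul_mem' := by
    rintro q x ⟨hx, hx'⟩
    rw [rat_smul]
    exact ⟨hx.smul q, by rw [map_smul, hx', smul_comm]⟩

variable {D : X.Cycles} {f : Module.End W.K (W.H X)}

/-- The rational number `⟨T x, y⟩`. -/
noncomputable def af0 (F : Fr W X D f) {T : Module.End W.K (W.H X)} (hT : AOp W X X T) {m : ℤ}
    (x y : AM W X m) : ℚ := Classical.choose (F.bf_rat (hT.apply x.2.1) y.2.1)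

lemma af0_cast (F : Fr W X D f) {T : Module.End W.K (W.H X)} (hT : AOp W X X T) {m : ℤ}
    (x y : AM W X m) : ((af0 F hT x y : ℚ) : W.K) = bf W X D f (T (x : W.H X)) (y : W.H X) :=
  (Classical.choose_spec (F.bf_rat (hT.apply x.2.1) y.2.1)).symm

/-- The rational form `⟨T x, y⟩` on the algebraic classes of weight `m`. -/
noncomputable def AF (F : Fr W X D f) {T : Module.End W.K (W.H X)} (hT : AOp W X X T) (m : ℤ) :
    AM W X m →ₗ[ℚ] AM W X m →ₗ[ℚ] ℚ :=
  LinearMap.mk₂ ℚ (fun x y => af0 F hT x y)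
    (fun x x' y => by
      have h : ((af0 F hT (x + x') y : ℚ) : W.K) = ((af0 F hT x y + af0 F hT x' y : ℚ) : W.K) := by
        rw [Rat.cast_add, af0_cast, af0_cast, af0_cast, Submodule.coe_add, map_add, map_add,
          LinearMap.add_apply]
      exact_mod_cast h)
    (fun q x y => by
      have h : ((af0 F hT (q • x) y : ℚ) : W.K) = ((q * af0 F hT x y : ℚ) : W.K) := by
        rw [Rat.cast_mul, af0_cast, af0_cast, Submodule.coe_smul, rat_smul, map_smul, map_smul,
          LinearMap.smul_apply, smul_eq_mul]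
      rw [smul_eq_mul]
      exact_mod_cast h)
    (fun x y y' => by
      have h : ((af0 F hT x (y + y') : ℚ) : W.K) = ((af0 F hT x y + af0 F hT x y' : ℚ) : W.K) := by
        rw [Rat.cast_add, af0_cast, af0_cast, af0_cast, Submodule.coe_add, map_add]
      exact_mod_cast h)
    (fun q x y => by
      have h : ((af0 F hT x (q • y) : ℚ) : W.K) = ((q * af0 F hT x y : ℚ) : W.K) := by
        rw [Rat.cast_mul, af0_cast, af0_cast, Submodule.coe_smul, rat_smul, map_smul, smul_eq_mul]
      rw [smul_eq_mul]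
      exact_mod_cast h)

lemma AF_cast (F : Fr W X D f) {T : Module.End W.K (W.H X)} (hT : AOp W X X T) (m : ℤ)
    (x y : AM W X m) : ((AF F hT m x y : ℚ) : W.K) = bf W X D f (T (x : W.H X)) (y : W.H X) :=
  af0_cast F hT x y

/-- The form on algebraic classes is symmetric. -/
lemma bf_symm_AS (S : Sy W X D f) {x y : W.H X} (hy : AS W X y) :
    bf W X D f x y = bf W X D f y x := by
  rw [S x y, par_AS hy]

/-- The form. -/
noncomputable def A1 (F : Fr W X D f) (m : ℤ) : AM W X m →ₗ[ℚ] AM W X m →ₗ[ℚ] ℚ :=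
  AF F AOp.one m

lemma A1_cast (F : Fr W X D f) (m : ℤ) (x y : AM W X m) :
    ((A1 F m x y : ℚ) : W.K) = bf W X D f (x : W.H X) (y : W.H X) := AF_cast F AOp.one m x y

lemma A1_symm (F : Fr W X D f) (S : Sy W X D f) (m : ℤ) (x y : AM W X m) :
    A1 F m x y = A1 F m y x := by
  have h : ((A1 F m x y : ℚ) : W.K) = ((A1 F m y x : ℚ) : W.K) := by
    rw [A1_cast, A1_cast, bf_symm_AS S y.2.1]
  exact_mod_cast h

/-- The maximal orthogonal family. -/
theorem exists_OM1 (F : Fr W X D f) (m : ℤ) : ∃ (ι : Type) (_ : Fintype ι) (x : ι → AM W X m),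
    OM (A1 F m) x ∧
    ∑ i, ((SignType.sign (A1 F m (x i) (x i)) : SignType) : ℤ) = wsum X.dim (sig W X D) m ∧
    (Fintype.card ι : ℤ) = wsum X.dim (fun n => (nPos W X D n : ℤ) + nNeg W X D n) m := by
  obtain ⟨ι, hι, y, s, h1, h2, h3, h4, h5, h6, h7, h8⟩ := exists_fam2 F m
  have hB : ∀ i, A1 F m ⟨y i, h1 i, h2 i⟩ ⟨y i, h1 i, h2 i⟩ = s i := by
    intro i
    have h : ((A1 F m ⟨y i, h1 i, h2 i⟩ ⟨y i, h1 i, h2 i⟩ : ℚ) : W.K) = (s i : W.K) := by
      rw [A1_cast]
      exact h4 i
    exact_mod_cast h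
  refine ⟨ι, hι, fun i => ⟨y i, h1 i, h2 i⟩, ⟨?_, ?_, ?_⟩, ?_, h8⟩
  · intro i
    rw [hB]
    exact h3 i
  · intro i j hij
    have h : ((A1 F m ⟨y i, h1 i, h2 i⟩ ⟨y j, h1 j, h2 j⟩ : ℚ) : W.K) = ((0 : ℚ) : W.K) := by
      rw [A1_cast, Rat.cast_zero]
      exact h5 i j hij
    exact_mod_cast h
  · intro w hw
    have h : ((A1 F m w w : ℚ) : W.K) = ((0 : ℚ) : W.K) := by
      rw [A1_cast, Rat.cast_zero]
      apply h6 _ w.2.1 w.2.2
      intro i
      have h9 := A1_cast F m w ⟨y i, h1 i, h2 i⟩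
      rw [hw i, Rat.cast_zero] at h9
      exact h9.symm
    exact_mod_cast h
  · rw [← h7]
    exact Finset.sum_congr rfl (fun i _ => by rw [hB])

lemma AM_gr {j : ℕ} {x : W.H X} (hx : x ∈ AM W X (2 * j - X.dim)) : x ∈ W.gr X (2 * j) := by
  rcases AS_wt hx.1 hx.2 with rfl | ⟨l, hl, h⟩
  · exact Submodule.zero_mem _
  · obtain rfl : l = j := by omega
    exact alg_gr h

/-- **The signature in weight `2 j - dim X`.** -/
theorem wsum_le (F : Fr W X D f) (S : Sy W X D f) {lam : ℚ} {g Θ : Module.End W.K (W.H X)}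
    (N : Neu W X D f lam g Θ) (hlam : 0 < lam) (j : ℕ) :
    |wsum X.dim (sig W X D) (2 * j - X.dim)| ≤ finrank W.K ((W.gr X (2 * j)).map g) := by
  classical
  set m : ℤ := 2 * j - X.dim with hm
  obtain ⟨ι, hι, x, hx, hsum, -⟩ := exists_OM1 F m
  rw [← hsum]
  have hΘ : ∀ x : AM W X m, AS W X (Θ (x : W.H X)) ∧
      wt (W.isInternal X) X.dim (Θ (x : W.H X)) = (m : W.K) • Θ (x : W.H X) := by
    intro x
    refine ⟨N.aT.apply x.2.1, ?_⟩
    rw [N.hT.apply, Int.cast_zero, zero_smul, add_zero, x.2.2, map_smul]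
  let T : AM W X m →ₗ[ℚ] AM W X m :=
    { toFun := fun x => ⟨Θ (x : W.H X), hΘ x⟩
      map_add' := fun x y => Subtype.ext (map_add Θ _ _)
      map_smul' := fun q x => Subtype.ext (by
        change Θ (q • (x : W.H X)) = q • Θ (x : W.H X)
        rw [rat_smul, rat_smul, map_smul]) }
  have hform : ∀ x y, A1 F m (T x) (T y) = -lam * (A1 F m x y - AF F N.ag m x y) := by
    intro x y
    have h : ((A1 F m (T x) (T y) : ℚ) : W.K) =
        ((-lam * (A1 F m x y - AF F N.ag m x y) : ℚ) : W.K) := by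
      rw [A1_cast]
      push_cast
      rw [A1_cast, AF_cast]
      exact N.form _ _
    exact_mod_cast h
  have hsymg : ∀ x y, AF F N.ag m x y = AF F N.ag m y x := by
    intro x y
    have h1 := hform x y
    have h2 := hform y x
    rw [A1_symm F S m (T y) (T x), A1_symm F S m y x] at h2
    have h3 : lam * AF F N.ag m x y = lam * AF F N.ag m y x := by linarith
    exact mul_left_cancel₀ hlam.ne' h3
  refine abs_sum_le (A1_symm F S m) hsymg hlam hform ?_ hx
  intro l z h1 h2
  have hmem : ∀ i, g (z i : W.H X) ∈ (W.gr X (2 * j)).map g := fun i =>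
    ⟨_, AM_gr (z i).2, rfl⟩
  have hli : LinearIndependent W.K (fun i => (⟨_, hmem i⟩ : (W.gr X (2 * j)).map g)) := by
    rw [Fintype.linearIndependent_iff]
    intro c hc i
    have h3 : ∑ i, c i • g (z i : W.H X) = 0 := by
      have := congrArg Subtype.val hc
      simpa using this
    have h4 := congrArg (fun a => bf W X D f a (z i : W.H X)) h3
    simp only [map_sum, map_smul, LinearMap.sum_apply, LinearMap.smul_apply, map_zero,
      LinearMap.zero_apply, smul_eq_mul, ← AF_cast F N.ag m] at h4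
    rw [Finset.sum_eq_single i] at h4
    · rcases mul_eq_zero.1 h4 with h | h
      · exact h
      · exact absurd (by exact_mod_cast h) (h1 i)
    · intro l _ hl
      rw [h2 l i hl, Rat.cast_zero, mul_zero]
    · intro h; exact absurd (Finset.mem_univ _) h
  have := hli.fintype_card_le_finrank
  rwa [Fintype.card_fin] at this

lemma Hm.mem_gr {g : Module.End W.K (W.H X)} (hg : Hm W 0 g) {i : ℕ} {x : W.H X}
    (hx : x ∈ W.gr X i) : g x ∈ W.gr X i := by
  have h1 := hg.apply x
  rw [Int.cast_zero, zero_smul, add_zero, Fr.wt_gr hx, map_smul] at h1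
  exact (mem_gr_of_wt (W.isInternal X) W_hbd h1).1 i rfl

/-- The ranks of a graded operator in the single degrees. -/
lemma sum_finrank_le {g : Module.End W.K (W.H X)} (hg : Hm W 0 g) (s : Finset ℕ) :
    ∑ j ∈ s, finrank W.K ((W.gr X (2 * j)).map g) ≤ finrank W.K (LinearMap.range g) := by
  classical
  let Φ : (Π j : s, (W.gr X (2 * (j : ℕ))).map g) →ₗ[W.K] LinearMap.range g :=
    { toFun := fun v => ⟨∑ j, (v j : W.H X), Submodule.sum_mem _ fun j _ => by
        obtain ⟨y, _, hy⟩ := (v j).2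
        exact ⟨y, hy⟩⟩
      map_add' := fun v w => Subtype.ext (by
        simp [Finset.sum_add_distrib])
      map_smul' := fun c v => Subtype.ext (by
        simp [Finset.smul_sum]) }
  have hΦ : Function.Injective Φ := by
    rw [← LinearMap.ker_eq_bot, LinearMap.ker_eq_bot']
    intro v hv
    have h1 : ∑ j, (v j : W.H X) = 0 := congrArg Subtype.val hv
    funext j
    apply Subtype.ext
    have h2 := congrArg (proj (W.isInternal X) (2 * (j : ℕ))) h1
    have hm : ∀ i : s, (v i : W.H X) ∈ W.gr X (2 * (i : ℕ)) := by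
      intro i
      obtain ⟨y, hy, hy'⟩ := (v i).2
      rw [← hy']
      exact Hm.mem_gr hg hy
    rw [map_sum, map_zero, Finset.sum_eq_single j] at h2
    · rw [proj_same _ (hm j)] at h2
      exact h2
    · intro i _ hi
      apply proj_ne _ (hm i)
      intro h
      apply hi
      apply Subtype.ext
      omega
    · intro h; exact absurd (Finset.mem_univ _) h
  have h := LinearMap.finrank_le_finrank_of_injective hΦ
  rw [Module.finrank_pi_fintype] at h
  rwa [← Finset.sum_coe_sort s (fun j => finrank W.K ((W.gr X (2 * j)).map g))]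

/-- The sum of the first terms. -/
lemma wsum_eq (d : ℕ) (σ : ℕ → ℤ) {n : ℕ} (hn : n ≤ d / 2) :
    wsum d σ (2 * ((d - n : ℕ) : ℤ) - d) = ∑ i ∈ range (n + 1), σ i := by
  rw [wsum, ← Finset.sum_filter]
  apply Finset.sum_congr _ (fun _ _ => rfl)
  ext i
  rw [Finset.mem_filter, Finset.mem_range, Finset.mem_range]
  constructor
  · rintro ⟨h1, h2, h3⟩
    rw [abs_of_nonneg (by omega)] at h2
    omega
  · intro h1
    refine ⟨by omega, ?_, by omega⟩
    rw [abs_of_nonneg (by omega)]
    omega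

lemma wsum_eq' (d : ℕ) (σ : ℕ → ℤ) {n : ℕ} (hn : n + 1 ≤ d / 2) :
    wsum d σ (2 * (n : ℤ) - d) = ∑ i ∈ range (n + 1), σ i := by
  rw [← wsum_eq d σ (n := n) (by omega), ← wsum_neg]
  congr 1
  omega

/-- The signatures in terms of the signatures in the single weights. -/
lemma sum_abs_le (d : ℕ) (σ : ℕ → ℤ) : ∑ n ∈ range (d / 2 + 1), |σ n| ≤
    ∑ j ∈ range (d + 1), |wsum d σ (2 * (j : ℤ) - d)| := by
  have h1 : ∀ n ∈ range (d / 2 + 1), |σ n| ≤ |wsum d σ (2 * ((d - n : ℕ) : ℤ) - d)| +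
      (if 0 < n then |wsum d σ (2 * ((n - 1 : ℕ) : ℤ) - d)| else 0) := by
    intro n hn
    rw [Finset.mem_range] at hn
    rcases Nat.eq_zero_or_pos n with rfl | h0
    · rw [if_neg (lt_irrefl 0), add_zero, wsum_eq d σ (n := 0) (by omega)]
      simp
    · rw [if_pos h0, wsum_eq d σ (n := n) (by omega), wsum_eq' d σ (n := n - 1) (by omega),
        show n - 1 + 1 = n by omega, Finset.sum_range_succ]
      calc |σ n| = |(∑ i ∈ range n, σ i + σ n) - ∑ i ∈ range n, σ i| := by congr 1; ring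
        _ ≤ _ := abs_sub _ _
  refine (Finset.sum_le_sum h1).trans ?_
  rw [Finset.sum_add_distrib]
  set a : ℕ → ℤ := fun j => |wsum d σ (2 * (j : ℤ) - d)| with ha
  have ha0 : ∀ j, 0 ≤ a j := fun j => abs_nonneg _
  have e1 : ∑ n ∈ range (d / 2 + 1), |wsum d σ (2 * ((d - n : ℕ) : ℤ) - d)| =
      ∑ j ∈ (range (d / 2 + 1)).image (fun n => d - n), a j := by
    rw [Finset.sum_image]
    intro x hx y hy hxy
    rw [Finset.mem_coe, Finset.mem_range] at hx hy
    change d - x = d - y at hxy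
    omega
  have e2 : ∑ n ∈ range (d / 2 + 1),
      (if 0 < n then |wsum d σ (2 * ((n - 1 : ℕ) : ℤ) - d)| else 0) =
      ∑ j ∈ range (d / 2), a j := by
    rw [Finset.sum_range_succ']
    simp [ha]
  rw [e1, e2, ← Finset.sum_union]
  · apply Finset.sum_le_sum_of_subset_of_nonneg
    · intro j hj
      rw [Finset.mem_union, Finset.mem_image, Finset.mem_range] at hj
      rw [Finset.mem_range]
      rcases hj with ⟨n, _, rfl⟩ | hj <;> omega
    · intro j _ _; exact ha0 j
  · rw [Finset.disjoint_left]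
    intro j hj hj'
    rw [Finset.mem_image] at hj
    obtain ⟨n, hn, rfl⟩ := hj
    rw [Finset.mem_range] at hn hj'
    omega

/-- **The bound for the signatures.** -/
theorem imbalance_le (F : Fr W X D f) (S : Sy W X D f) {lam : ℚ} {g Θ : Module.End W.K (W.H X)}
    (N : Neu W X D f lam g Θ) (hlam : 0 < lam) :
    imbalance W X D ≤ finrank W.K (LinearMap.range g) := by
  have h1 : (imbalance W X D : ℤ) = ∑ n ∈ range (X.dim / 2 + 1), |sig W X D n| := by
    rw [imbalance]
    push_cast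
    apply Finset.sum_congr rfl
    intro n _
    rfl
  have h2 : (imbalance W X D : ℤ) ≤ finrank W.K (LinearMap.range g) := by
    rw [h1]
    refine (sum_abs_le X.dim (sig W X D)).trans ?_
    refine (Finset.sum_le_sum (fun j _ => wsum_le F S N hlam j)).trans ?_
    exact_mod_cast sum_finrank_le N.hg (range (X.dim + 1))
  exact_mod_cast h2

end Pool.Agent.N202.HZ
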