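import Pool.Agent.Y129.Half.Words

/-!
# The rank of the Gram matrix of the permutations
-/

open Finset

namespace Pool.Agent.N202.HZ

section Rank

open Matrix

/-- The square of the trace of a real symmetric matrix is at most the rank times the trace of the
square. -/
theorem trace_sq_le {n : Type*} [Fintype n] [DecidableEq n] {G : Matrix n n ℝ}
    (hG : G.IsHermitian) : G.trace ^ 2 ≤ G.rank * (G * G).trace := by
  have h1 : G.trace = ∑ i, hG.eigenvalues i := by
    rw [hG.trace_eq_sum_eigenvalues]
    rfl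
  have h2 : (G * G).trace = ∑ i, hG.eigenvalues i ^ 2 := by
    have h3 : ∀ M : Matrix n n ℝ,
        (Unitary.conjStarAlgAut ℝ _ hG.eigenvectorUnitary M).trace = M.trace := by
      intro M
      rw [Unitary.conjStarAlgAut_apply, Matrix.trace_mul_comm, ← mul_assoc]
      simp
    have h4 : (G * G).trace = (Unitary.conjStarAlgAut ℝ _ hG.eigenvectorUnitary
        (diagonal (RCLike.ofReal ∘ hG.eigenvalues) *
          diagonal (RCLike.ofReal ∘ hG.eigenvalues))).trace := by
      rw [map_mul, ← hG.spectral_theorem]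
    rw [h4, h3, diagonal_mul_diagonal, trace_diagonal]
    apply Finset.sum_congr rfl
    intro i _
    simp [sq]
  rw [h1, h2, hG.rank_eq_card_non_zero_eigs]
  have h5 : ∑ i, hG.eigenvalues i = ∑ i ∈ univ.filter (fun i => hG.eigenvalues i ≠ 0),
      hG.eigenvalues i := by
    rw [Finset.sum_filter_ne_zero]
  have h6 : ∑ i ∈ univ.filter (fun i => hG.eigenvalues i ≠ 0), hG.eigenvalues i ^ 2 ≤
      ∑ i, hG.eigenvalues i ^ 2 :=
    Finset.sum_le_sum_of_subset_of_nonneg (Finset.filter_subset _ _) fun i _ _ => sq_nonneg _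
  rw [h5, Fintype.card_subtype]
  exact sq_sum_le_card_mul_sum_sq.trans (mul_le_mul_of_nonneg_left h6 (Nat.cast_nonneg _))

/-- The rank of a product through a small space. -/
lemma rank_le_card {n ι : Type*} [Fintype n] [Fintype ι] [DecidableEq ι]
    {G : Matrix n n ℝ} {A : Matrix n ι ℝ} {d : ι → ℝ} (h : G = A * diagonal d * Aᵀ) :
    G.rank ≤ Fintype.card ι := by
  rw [h, Matrix.mul_assoc]
  exact (Matrix.rank_mul_le_left _ _).trans (Matrix.rank_le_card_width _)

end Rank

section Burnside

variable (ι : Type) [Fintype ι] [DecidableEq ι] (N : ℕ)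

/-- The number of words fixed by a permutation of the letters. -/
def nfix (σ : Equiv.Perm (Fin N)) : ℕ := Fintype.card {w : Fin N → ι // w ∘ ⇑σ⁻¹ = w}

attribute [local instance] arrowAction in
theorem sum_nfix_sq_le : ∑ σ : Equiv.Perm (Fin N), nfix ι N σ ^ 2 ≤
    N.factorial * (N + 1) ^ (Fintype.card ι ^ 2) := by
  classical
  have h1 : ∀ σ : Equiv.Perm (Fin N), nfix ι N σ ^ 2 =
      Fintype.card (MulAction.fixedBy (Fin N → ι × ι) σ) := by
    intro σ
    rw [sq, nfix, ← Fintype.card_prod]
    apply Fintype.card_congr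
    have key : ∀ p : Fin N → ι × ι, p ∈ MulAction.fixedBy (Fin N → ι × ι) σ ↔
        ((fun i => (p i).1) ∘ ⇑σ⁻¹ = fun i => (p i).1) ∧
        ((fun i => (p i).2) ∘ ⇑σ⁻¹ = fun i => (p i).2) := by
      intro p
      have e : (σ • p : Fin N → ι × ι) = fun i => p (σ⁻¹ i) := rfl
      rw [MulAction.mem_fixedBy, e]
      constructor
      · intro h
        constructor
        · funext i
          exact congrArg Prod.fst (congrFun h i)
        · funext i
          exact congrArg Prod.snd (congrFun h i)
      · rintro ⟨h1, h2⟩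
        funext i
        exact Prod.ext (congrFun h1 i) (congrFun h2 i)
    exact
      { toFun := fun q => ⟨fun i => (q.1.1 i, q.2.1 i), (key _).2 ⟨q.1.2, q.2.2⟩⟩
        invFun := fun p => (⟨fun i => (p.1 i).1, ((key _).1 p.2).1⟩,
          ⟨fun i => (p.1 i).2, ((key _).1 p.2).2⟩)
        left_inv := fun q => rfl
        right_inv := fun p => rfl }
  have h2 : Fintype.card (Quotient (MulAction.orbitRel (Equiv.Perm (Fin N)) (Fin N → ι × ι))) ≤
      (N + 1) ^ (Fintype.card ι ^ 2) := by
    let c : Quotient (MulAction.orbitRel (Equiv.Perm (Fin N)) (Fin N → ι × ι)) →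
        (ι × ι → Fin (N + 1)) := fun q =>
      Y129.Half.cnt ((fun i => (q.out i).1), (fun i => (q.out i).2))
    have hc : Function.Injective c := by
      intro q q' h
      obtain ⟨σ, h1, h2⟩ := Y129.Half.cnt_eq h
      rw [← Quotient.out_eq q, ← Quotient.out_eq q']
      apply Quotient.sound
      change q.out ∈ MulAction.orbit (Equiv.Perm (Fin N)) q'.out
      refine ⟨σ⁻¹, ?_⟩
      funext i
      have e : (σ⁻¹ • q'.out : Fin N → ι × ι) i = q'.out (σ i) := by
        change q'.out ((σ⁻¹)⁻¹ i) = _
        rw [inv_inv]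
      change (σ⁻¹ • q'.out : Fin N → ι × ι) i = _
      rw [e]
      exact (Prod.ext (congrFun h1 i) (congrFun h2 i)).symm
    have h := Fintype.card_le_of_injective c hc
    rwa [Fintype.card_fun, Fintype.card_fin, Fintype.card_prod, ← sq] at h
  rw [Finset.sum_congr rfl fun σ _ => h1 σ,
    MulAction.sum_card_fixedBy_eq_card_orbits_mul_card_group, Fintype.card_perm, Fintype.card_fin,
    mul_comm]
  exact Nat.mul_le_mul_left _ h2

end Burnside

end Pool.Agent.N202.HZ
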