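import Pool.Agent.N202.HZ.Main

/-!
# The dichotomy
-/

open CategoryTheory AlgebraicGeometry Finset

universe u v

namespace Pool.Agent.N202.HZ

open Module
open Pool.Agent.H914 Pool.Agent.H914.VarClass Pool.Agent.H914.VarClass.Obj
  Pool.Agent.H914.WeilCohomology Pool.Agent.H281R3.HT Pool.Agent.W552 Pool.Agent.W539.Ker

variable {k : Type u} [Field k] {𝒱 : VarClass k} {ops : CycleOps 𝒱}
  {W : WeilCohomology.{u, v} ops} {X Y Z : 𝒱.Obj} {D : X.Cycles} {f : Module.End W.K (W.H X)}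

/-- A primitive cycle which is not numerically trivial is not orthogonal to all primitive cycles of
the same codimension. -/
lemma exists_pairing (F : Fr W X D f) {j : ℕ} (hj : 2 * j ≤ X.dim) {z : X.Cycles}
    (hz : Primitive W X D j z) {w : X.Cycles} (hw : X.IsCyc (X.dim - j) w)
    (hzw : X.V.degCycle (ops.mul z w) ≠ 0) :
    ∃ y, Primitive W X D j y ∧ pairing ops X D j z y ≠ 0 := by
  by_contra hno
  push Not at hno
  apply hzw
  set L := LinearMap.mulLeft W.K (W.cl X D) with hL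
  have hwl : W.cl X w ∈ algClasses W X (X.dim - j) := ⟨w, hw, rfl⟩
  obtain ⟨v, hv, hs⟩ := (ap_alg F).decomp (mulLeft_isHom F.hD) W_hbd hwl
  rw [← hL] at hv hs
  have hzL : (L ^ (X.dim - 2 * j + 1)) (W.cl X z) = 0 := by rw [← cl_divPow]; exact hz.2
  have key : ∀ b ∈ range (X.dim - j + 1), W.tr X (W.cl X z * (L ^ b) (v b)) = 0 := by
    intro b hb
    rw [Finset.mem_range] at hb
    obtain ⟨h1, h2, h3⟩ := hv b (by omega)
    by_cases hv0 : v b = 0
    · rw [hv0, map_zero, mul_zero, map_zero]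
    have h4 := h2 hv0
    rcases lt_trichotomy (X.dim - j - b) j with h | h | h
    · rw [← L_pow_self F.hD, L_pow_gt (n := X.dim) (i := 2 * j) hzL (by omega), zero_mul,
        map_zero]
    · obtain ⟨y, hy, hy'⟩ := h1
      rw [h] at hy h3
      have hb' : b = X.dim - 2 * j := by omega
      have hyp : Primitive W X D j y := ⟨hy, by rw [cl_divPow, hy']; exact h3⟩
      have h5 := pairing_cast (W := W) F.hD hj hz.1 hyp.1
      rw [hno y hyp, Rat.cast_zero, hy', ← hL, ← hb'] at h5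
      rcases mul_eq_zero.1 h5.symm with h6 | h6
      · exact absurd h6 (pow_ne_zero _ (neg_ne_zero.2 one_ne_zero))
      · exact h6
    · rw [L_pow_gt (n := X.dim) (i := 2 * (X.dim - j - b)) h3 (by omega), mul_zero, map_zero]
  have h1 : ((X.V.degCycle (ops.mul z w) : ℚ) : W.K) = 0 := by
    rw [← W.tr_cl, W.cl_mul, hs, Finset.mul_sum, map_sum]
    · exact Finset.sum_eq_zero key
    · have := ops.mul_mem hz.1 hw
      rwa [show j + (X.dim - j) = X.dim by omega] at this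
  exact_mod_cast h1

/-- If the conjecture fails there is a primitive cycle with a negative square. -/
lemma exists_neg (F : Fr W X D f) (h : ¬ HodgeTypeNum W X D) :
    ∃ j, 2 * j ≤ X.dim ∧ HasFamily W X D j (-1) 1 := by
  rw [HodgeTypeNum] at h
  push Not at h
  obtain ⟨j, hj, z, hz, ⟨w, hw, hzw⟩, hle⟩ := h
  refine ⟨j, hj, ?_⟩
  have hfam : ∀ y, Primitive W X D j y → pairing ops X D j y y < 0 →
      HasFamily W X D j (-1) 1 := by
    intro y hy hneg
    refine ⟨fun _ => y, fun _ => hy, fun _ => by rw [neg_one_mul]; linarith, fun i l hil => ?_⟩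
    exact absurd (Subsingleton.elim i l) hil
  rcases lt_or_eq_of_le hle with hlt | heq
  · exact hfam z hz hlt
  · obtain ⟨y, hy, hzy⟩ := exists_pairing F hj hz hw hzw
    -- the vectors `t z - y`
    let z' : PM W X D j := ⟨z, hz⟩
    let y' : PM W X D j := ⟨y, hy⟩
    set a := pairing ops X D j z y with ha
    set b := pairing ops X D j y y with hb
    set t : ℚ := -(b + 1) / (2 * a) with ht
    have h1 : BP W F.hD j hj (t • z' + y') (t • z' + y') = 2 * t * a + b := by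
      have e1 : BP W F.hD j hj z' z' = 0 := heq
      have e2 : BP W F.hD j hj z' y' = a := rfl
      have e3 : BP W F.hD j hj y' z' = a := by rw [BP_symm, e2]
      have e4 : BP W F.hD j hj y' y' = b := rfl
      simp only [map_add, LinearMap.add_apply, map_smul, LinearMap.smul_apply, e1, e2, e3, e4,
        smul_eq_mul]
      ring
    have h2 : 2 * t * a + b < 0 := by
      have : 2 * t * a = -(b + 1) := by
        rw [ht]
        field_simp
      rw [this]
      linarith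
    rw [← h1] at h2
    exact hfam _ (t • z' + y').2 h2

/-- The conjecture in terms of the number of negative squares. -/
theorem hodgeTypeNum_iff (F : Fr W X D f) :
    HodgeTypeNum W X D ↔ ∀ j, 2 * j ≤ X.dim → nNeg W X D j = 0 := by
  constructor
  · intro h j hj
    have h1 : ¬ HasFamily W X D j (-1) 1 := by
      rintro ⟨z, hz, hneg, -⟩
      have h2 := hneg 0
      rw [neg_one_mul, neg_pos] at h2
      have h3 := h j hj (z 0) (hz 0) ⟨divPow ops D (X.dim - 2 * j) (z 0), ?_, ?_⟩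
      · linarith
      · have := divPow_mem (ops := ops) F.hD (X.dim - 2 * j) (hz 0).1
        rwa [show j + (X.dim - 2 * j) = X.dim - j by omega] at this
      · intro h4
        rw [pairing, h4, mul_zero] at h2
        exact lt_irrefl _ h2
    rw [nNeg]
    apply le_antisymm _ (Nat.zero_le _)
    apply csSup_le
    · exact ⟨0, Fin.elim0, fun i => i.elim0, fun i => i.elim0, fun i => i.elim0⟩
    · rintro r ⟨z, hz, hneg, -⟩
      by_contra hr
      push Not at hr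
      apply h1
      refine ⟨fun _ => z ⟨0, hr⟩, fun _ => hz _, fun _ => hneg _, fun i l hil => ?_⟩
      exact absurd (Subsingleton.elim i l) hil
  · intro h
    by_contra hno
    obtain ⟨j, hj, hF⟩ := exists_neg F hno
    have h1 : 1 ≤ nNeg W X D j := le_csSup (bddAbove_family W F.hD hj).2 hF
    have h2 := h j hj
    omega

/-- The elementary estimate. -/
lemma exists_bound (K M : ℕ) {B : ℝ} (hB : 2 ≤ B) : ∃ C c : ℝ, 0 < c ∧ c < 1 ∧ 0 ≤ C ∧
    ∀ n : ℕ, (B - 2) ^ (n / (K + 1)) * ((n : ℝ) + 2) ^ M ≤ C * c ^ n * B ^ (n / (K + 1)) := by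
  set x : ℝ := (B - 2) / B with hx
  have hB0 : 0 < B := by linarith
  have hx0 : 0 ≤ x := div_nonneg (by linarith) hB0.le
  have hx1 : x < 1 := by rw [hx, div_lt_one hB0]; linarith
  set δ : ℝ := (1 - x) / (2 * (K + 1)) with hδ
  have hK : (0 : ℝ) < K + 1 := by positivity
  have hδ0 : 0 < δ := div_pos (by linarith) (by linarith)
  have hδ1 : δ < 1 := by
    rw [hδ, div_lt_one (by linarith)]
    have : (0 : ℝ) ≤ K := Nat.cast_nonneg K
    linarith
  set c : ℝ := 1 - δ with hc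
  have hc0 : 0 < c := by linarith
  have hc1 : c < 1 := by linarith
  have hz : x < c ^ (K + 1) := by
    have h1 := one_add_mul_le_pow (a := -δ) (by linarith) (K + 1)
    have h2 : 1 + ((K + 1 : ℕ) : ℝ) * -δ = (1 + x) / 2 := by
      push_cast
      rw [hδ]
      field_simp
      ring
    rw [h2, show 1 + -δ = c by rw [hc]; ring] at h1
    linarith
  set z := c ^ (K + 1) with hzdef
  have hz0 : 0 < z := pow_pos hc0 _
  have hr0 : 0 ≤ x / z := div_nonneg hx0 hz0.le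
  have hr1 : x / z < 1 := (div_lt_one hz0).2 hz
  obtain ⟨C₁, hC₁⟩ : ∃ C₁ : ℝ, ∀ q : ℕ, (x / z) ^ q * ((q : ℝ) + 2) ^ M ≤ C₁ := by
    have h1 : Filter.Tendsto (fun q : ℕ => (q : ℝ) ^ M * (x / z) ^ q) Filter.atTop (nhds 0) :=
      tendsto_pow_const_mul_const_pow_of_abs_lt_one M (by rwa [abs_of_nonneg hr0])
    obtain ⟨C₂, hC₂⟩ := h1.bddAbove_range
    refine ⟨3 ^ M * max C₂ 1, fun q => ?_⟩
    rcases Nat.eq_zero_or_pos q with rfl | hq
    · rw [pow_zero, one_mul, Nat.cast_zero, zero_add]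
      have h2 : (2 : ℝ) ^ M ≤ 3 ^ M := pow_le_pow_left₀ (by norm_num) (by norm_num) M
      have h3 : (1 : ℝ) ≤ max C₂ 1 := le_max_right _ _
      nlinarith [pow_pos (show (0 : ℝ) < 3 by norm_num) M]
    · have h2 : ((q : ℝ) + 2) ^ M ≤ 3 ^ M * (q : ℝ) ^ M := by
        rw [← mul_pow]
        apply pow_le_pow_left₀ (by positivity)
        have : (1 : ℝ) ≤ q := by exact_mod_cast hq
        linarith
      have h3 : (q : ℝ) ^ M * (x / z) ^ q ≤ C₂ := hC₂ ⟨q, rfl⟩
      calc (x / z) ^ q * ((q : ℝ) + 2) ^ M ≤ (x / z) ^ q * (3 ^ M * (q : ℝ) ^ M) :=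
            mul_le_mul_of_nonneg_left h2 (pow_nonneg hr0 _)
        _ = 3 ^ M * ((q : ℝ) ^ M * (x / z) ^ q) := by ring
        _ ≤ 3 ^ M * max C₂ 1 :=
            mul_le_mul_of_nonneg_left (h3.trans (le_max_left _ _)) (by positivity)
  have hC₁0 : 0 ≤ C₁ := by
    refine le_trans ?_ (hC₁ 0)
    positivity
  refine ⟨((K : ℝ) + 1) ^ M * C₁ * (c ^ K)⁻¹, c, hc0, hc1, by positivity, fun n => ?_⟩
  set q := n / (K + 1) with hq
  set r := n % (K + 1) with hr
  have hn : n = r + (K + 1) * q := (Nat.mod_add_div n (K + 1)).symm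
  have hrK : r ≤ K := Nat.lt_succ_iff.1 (Nat.mod_lt _ (Nat.succ_pos K))
  have h1 : ((n : ℝ) + 2) ^ M ≤ ((K : ℝ) + 1) ^ M * ((q : ℝ) + 2) ^ M := by
    rw [← mul_pow]
    apply pow_le_pow_left₀ (by positivity)
    have h2 : ((n : ℕ) : ℝ) = (r : ℝ) + ((K : ℝ) + 1) * q := by
      conv_lhs => rw [hn]
      push_cast
      ring
    have h3 : (r : ℝ) ≤ K := by exact_mod_cast hrK
    rw [h2]
    nlinarith
  have h2 : (B - 2) ^ q = x ^ q * B ^ q := by
    rw [← mul_pow, hx, div_mul_cancel₀ _ hB0.ne']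
  have h3 : x ^ q = (x / z) ^ q * z ^ q := by
    rw [← mul_pow, div_mul_cancel₀ _ hz0.ne']
  have h4 : z ^ q ≤ (c ^ K)⁻¹ * c ^ n := by
    rw [hzdef, ← pow_mul]
    have h5 : c ^ n = c ^ r * c ^ ((K + 1) * q) := by rw [← pow_add, ← hn]
    rw [h5, ← mul_assoc]
    have h6 : c ^ K ≤ c ^ r := pow_le_pow_of_le_one hc0.le hc1.le hrK
    have h7 : 1 ≤ (c ^ K)⁻¹ * c ^ r := by
      rw [inv_mul_eq_div, le_div_iff₀ (pow_pos hc0 K), one_mul]
      exact h6
    have h8 : 0 ≤ c ^ ((K + 1) * q) := pow_nonneg hc0.le _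
    nlinarith
  rw [h2, h3]
  have hBq : 0 ≤ B ^ q := pow_nonneg hB0.le _
  calc (x / z) ^ q * z ^ q * B ^ q * ((n : ℝ) + 2) ^ M
      ≤ (x / z) ^ q * z ^ q * B ^ q * (((K : ℝ) + 1) ^ M * ((q : ℝ) + 2) ^ M) :=
        mul_le_mul_of_nonneg_left h1 (by positivity)
    _ = ((K : ℝ) + 1) ^ M * ((x / z) ^ q * ((q : ℝ) + 2) ^ M) * (z ^ q * B ^ q) := by ring
    _ ≤ ((K : ℝ) + 1) ^ M * C₁ * (z ^ q * B ^ q) :=
        mul_le_mul_of_nonneg_right (mul_le_mul_of_nonneg_left (hC₁ q) (by positivity))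
          (by positivity)
    _ ≤ ((K : ℝ) + 1) ^ M * C₁ * (((c ^ K)⁻¹ * c ^ n) * B ^ q) :=
        mul_le_mul_of_nonneg_left (mul_le_mul_of_nonneg_right h4 hBq) (by positivity)
    _ = _ := by ring

/-- **The law for the products `Q × P ^ (n + 1)`.** -/
theorem law {Q P : Polarized 𝒱} (hQ : Good W Q) (hP : Good W P) {K : ℕ}
    (hK : ¬ HodgeTypeNum W (power ops P K).X (power ops P K).D) :
    ∃ C c : ℝ, 0 < c ∧ c < 1 ∧ ∀ n : ℕ,
      (imbalance W (Q.prod ops (power ops P n)).X (Q.prod ops (power ops P n)).D : ℝ) ≤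
        C * c ^ n * total W (Q.prod ops (power ops P n)).X (Q.prod ops (power ops P n)).D := by
  obtain ⟨f₀, G₀⟩ := exists_gd hQ.isCyc hQ.hardLefschetz hQ.lefschetzB
  obtain ⟨f, G⟩ := exists_gd hP.isCyc hP.hardLefschetz hP.lefschetzB
  obtain ⟨f₁, G₁⟩ := exists_gd_power (ops := ops) G K
  obtain ⟨i, hi, hF⟩ := exists_neg G₁.fr hK
  obtain ⟨a, b, y, z, Pp⟩ := exists_Pr G₁ (deg_power G hP.deg_pos K) hi hF
  have h2 := Pp.finrank
  rw [finrank_power] at h2
  set N := finrank W.K (W.H P.X) with hN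
  have hB : 2 ≤ N ^ (K + 1) := by omega
  have hN1 : 1 ≤ N := by
    by_contra h0
    have h0 : N = 0 := by omega
    rw [h0, zero_pow (by omega)] at hB
    omega
  obtain ⟨C, c, hc0, hc1, hC, hbound⟩ := exists_bound K (N ^ 2)
    (B := ((N ^ (K + 1) : ℕ) : ℝ)) (by exact_mod_cast hB)
  set NQ := finrank W.K (W.H Q.X) with hNQ
  refine ⟨(NQ : ℝ) * ((N ^ (K + 1) : ℕ) : ℝ) * C, c, hc0, hc1, fun n => ?_⟩
  have hup := imbalance_power_le (ops := ops) G₀ G hP.deg_pos hi hF n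
  have hlow := growth_le (ops := ops) G₀ hQ.deg_pos G hP.deg_pos hN1 n
  rw [← hN, ← hNQ] at hup
  rw [← hN] at hlow
  set I := imbalance W (Q.prod ops (power ops P n)).X (Q.prod ops (power ops P n)).D with hI
  set T := total W (Q.prod ops (power ops P n)).X (Q.prod ops (power ops P n)).D with hT
  set q := n / (K + 1) with hq
  have hmod : n % (K + 1) + 1 ≤ K + 1 := Nat.mod_lt _ (Nat.succ_pos K)
  have h3 : I ≤ NQ * N ^ (K + 1) * (N ^ (K + 1) - 2) ^ q :=
    hup.trans (Nat.mul_le_mul_right _ (Nat.mul_le_mul_left _ (Nat.pow_le_pow_right hN1 hmod)))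
  have h4 : (I : ℝ) ≤ (NQ : ℝ) * ((N ^ (K + 1) : ℕ) : ℝ) * (((N ^ (K + 1) : ℕ) : ℝ) - 2) ^ q := by
    have h5 : ((N ^ (K + 1) - 2 : ℕ) : ℝ) = ((N ^ (K + 1) : ℕ) : ℝ) - 2 := by
      rw [Nat.cast_sub hB]
      norm_num
    rw [← h5]
    exact_mod_cast h3
  have h5 : (((N ^ (K + 1) : ℕ) : ℝ)) ^ q ≤ (T : ℝ) * ((n : ℝ) + 2) ^ (N ^ 2) := by
    have h6 : (N ^ (K + 1)) ^ q ≤ T * (n + 2) ^ (N ^ 2) := by
      refine le_trans ?_ hlow
      rw [← pow_mul]
      apply Nat.pow_le_pow_right hN1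
      rw [hq]
      exact Nat.mul_div_le n (K + 1)
    exact_mod_cast h6
  have h6 := hbound n
  have hpos : (0 : ℝ) < ((n : ℝ) + 2) ^ (N ^ 2) := by positivity
  have hNB : (0 : ℝ) ≤ (NQ : ℝ) * ((N ^ (K + 1) : ℕ) : ℝ) := by positivity
  have h7 : (I : ℝ) * ((n : ℝ) + 2) ^ (N ^ 2) ≤
      ((NQ : ℝ) * ((N ^ (K + 1) : ℕ) : ℝ) * C * c ^ n * T) * ((n : ℝ) + 2) ^ (N ^ 2) := by
    calc (I : ℝ) * ((n : ℝ) + 2) ^ (N ^ 2) ≤
        ((NQ : ℝ) * ((N ^ (K + 1) : ℕ) : ℝ) * (((N ^ (K + 1) : ℕ) : ℝ) - 2) ^ q) *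
          ((n : ℝ) + 2) ^ (N ^ 2) := mul_le_mul_of_nonneg_right h4 hpos.le
      _ = ((NQ : ℝ) * ((N ^ (K + 1) : ℕ) : ℝ)) * ((((N ^ (K + 1) : ℕ) : ℝ) - 2) ^ q *
          ((n : ℝ) + 2) ^ (N ^ 2)) := by ring
      _ ≤ ((NQ : ℝ) * ((N ^ (K + 1) : ℕ) : ℝ)) * (C * c ^ n *
          (((N ^ (K + 1) : ℕ) : ℝ)) ^ q) := mul_le_mul_of_nonneg_left h6 hNB
      _ ≤ ((NQ : ℝ) * ((N ^ (K + 1) : ℕ) : ℝ)) * (C * c ^ n *
          ((T : ℝ) * ((n : ℝ) + 2) ^ (N ^ 2))) :=
        mul_le_mul_of_nonneg_left (mul_le_mul_of_nonneg_left h5 (by positivity)) hNB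
      _ = _ := by ring
  exact le_of_mul_le_mul_right h7 hpos

end Pool.Agent.N202.HZ
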