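import Pool.Agent.N202.HZ.Dich

/-!
# The zero-one-half law: the final statement
-/

open CategoryTheory AlgebraicGeometry Finset

universe u v

namespace Pool.Agent.N202.HZ

open Module
open Pool.Agent.H914 Pool.Agent.H914.VarClass Pool.Agent.H914.VarClass.Obj
  Pool.Agent.H914.WeilCohomology Pool.Agent.H281R3.HT Pool.Agent.W552 Pool.Agent.W539.Ker

variable {k : Type u} [Field k] {𝒱 : VarClass k} {ops : CycleOps 𝒱}

/-- **The zero-one-half law.** -/
theorem final (W : WeilCohomology.{u, v} ops) (P : Polarized 𝒱) (hP : Good W P) (K : ℕ) :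
    HodgeTypeNum W (power ops P K).X (power ops P K).D ∨ ∀ Q, Good W Q →
      (∀ n, imbalance W (Q.prod ops (power ops P n)).X (Q.prod ops (power ops P n)).D ≤
          finrank W.K (W.H Q.X) * finrank W.K (W.H P.X) ^ (n % (K + 1) + 1) *
            (finrank W.K (W.H P.X) ^ (K + 1) - 2) ^ (n / (K + 1)) ∧
        finrank W.K (W.H P.X) ^ n ≤
          total W (Q.prod ops (power ops P n)).X (Q.prod ops (power ops P n)).D *
            (n + 2) ^ (finrank W.K (W.H P.X) ^ 2)) ∧
      ∃ C c : ℝ, 0 < c ∧ c < 1 ∧ ∀ n : ℕ,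
        (imbalance W (Q.prod ops (power ops P n)).X (Q.prod ops (power ops P n)).D : ℝ) ≤
          C * c ^ n * total W (Q.prod ops (power ops P n)).X (Q.prod ops (power ops P n)).D := by
  by_cases hK : HodgeTypeNum W (power ops P K).X (power ops P K).D
  · exact Or.inl hK
  right
  refine fun Q hQ => ⟨fun n => ?_, law hQ hP hK⟩
  obtain ⟨f₀, G₀⟩ := exists_gd hQ.isCyc hQ.hardLefschetz hQ.lefschetzB
  obtain ⟨f, G⟩ := exists_gd hP.isCyc hP.hardLefschetz hP.lefschetzB
  obtain ⟨f₁, G₁⟩ := exists_gd_power (ops := ops) G K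
  obtain ⟨i, hi, hF⟩ := exists_neg G₁.fr hK
  obtain ⟨a, b, y, z, Pp⟩ := exists_Pr G₁ (deg_power G hP.deg_pos K) hi hF
  have h2 := Pp.finrank
  rw [finrank_power] at h2
  have hN1 : 1 ≤ finrank W.K (W.H P.X) := by
    by_contra h0
    have h0 : finrank W.K (W.H P.X) = 0 := by omega
    rw [h0, zero_pow (by omega)] at h2
    omega
  exact ⟨imbalance_power_le G₀ G hP.deg_pos hi hF n, growth_le G₀ hQ.deg_pos G hP.deg_pos hN1 n⟩

end Pool.Agent.N202.HZ
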