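import Pool.Agent.N202.HZ.Tower

/-!
# Products of polarized varieties which satisfy the Lefschetz standard conjecture
-/

open CategoryTheory AlgebraicGeometry Finset

universe u v

namespace Pool.Agent.N202.HZ

open Module
open Pool.Agent.H914 Pool.Agent.H914.VarClass Pool.Agent.H914.VarClass.Obj
  Pool.Agent.H914.WeilCohomology Pool.Agent.H281R3.HT Pool.Agent.W552 Pool.Agent.W539.Ker

variable {k : Type u} [Field k] {𝒱 : VarClass k} {ops : CycleOps 𝒱}
  {W : WeilCohomology.{u, v} ops} {X Y Z : 𝒱.Obj} {D : X.Cycles} {f : Module.End W.K (W.H X)}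
  {E : Y.Cycles} {g : Module.End W.K (W.H Y)}

/-- The hard Lefschetz property from the lowering operator. -/
lemma Fr.hardLef (F : Fr W X D f) : HardLefschetz W X D := by
  intro i hi
  have hsurj : ∀ b ∈ W.gr X (2 * X.dim - i),
      ∃ a ∈ W.gr X i, ((LinearMap.mulLeft W.K (W.cl X D)) ^ (X.dim - i)) a = b := by
    intro b hb
    obtain ⟨z, hz, hz'⟩ := exists_preimage' F.sl2
      (P := fun d x => wt (W.isInternal X) X.dim x = (d : W.K) • x)
      (fun d => by rw [map_zero, smul_zero])
      (fun {d x y} hx hy => by rw [map_add, hx, hy, smul_add])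
      (fun q {d x} hx => by rw [map_smul, hx, smul_comm])
      (fun {d x} hx => by
        have h1 := congrArg (fun G => G x) F.sl2.he
        simp only [LinearMap.sub_apply, Module.End.mul_apply] at h1
        rw [sub_eq_iff_eq_add] at h1
        rw [h1, hx, map_smul]
        have h2 : (2 : Module.End W.K (W.H X)) (LinearMap.mulLeft W.K (W.cl X D) x) =
            (2 : W.K) • LinearMap.mulLeft W.K (W.cl X D) x := by
          rw [ofNat_smul_eq_nsmul]; rfl
        rw [h2]
        push_cast
        module)
      (fun {d x} hx => by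
        have h1 := congrArg (fun G => G x) F.sl2.hf
        simp only [LinearMap.sub_apply, Module.End.mul_apply, LinearMap.neg_apply] at h1
        rw [sub_eq_iff_eq_add] at h1
        rw [h1, hx, map_smul]
        have h2 : (2 : Module.End W.K (W.H X)) (f x) = (2 : W.K) • f x := by
          rw [ofNat_smul_eq_nsmul]; rfl
        rw [h2]
        push_cast
        module)
      (fun {d x} hx => hx) (X.dim - i) (y := b) (by
        rw [Fr.wt_gr hb]
        congr 1
        rw [Nat.cast_sub (by omega)]
        push_cast [Nat.cast_sub hi]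
        ring)
    refine ⟨z, ?_, hz'⟩
    refine (mem_gr_of_wt (W.isInternal X) W_hbd hz).1 i ?_
    push_cast [Nat.cast_sub hi]
    ring
  refine ⟨?_, hsurj⟩
  intro a ha h0
  apply W.nondeg
  intro b
  refine gr_induction (W.isInternal X) (p := fun b => W.tr X (a * b) = 0) ?_ ?_ b
  · intro j b hb
    by_cases hij : i + j = 2 * X.dim
    · obtain ⟨c, hc, rfl⟩ := hsurj b (by rwa [show 2 * X.dim - i = j by omega])
      rw [← L_pow_self F.hD, h0, zero_mul, map_zero]
    · exact W.tr_eq_zero (W.mul_mem ha hb) hij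
  · intro b c hb hc
    rw [mul_add, map_add, hb, hc, add_zero]

/-- The sign operator on a product. -/
noncomputable def sgnOp (W : WeilCohomology.{u, v} ops) (X Y : 𝒱.Obj) :
    Module.End W.K (W.H (X.prod Y)) :=
  ((1 / 2 : ℚ) : W.K) • (extOp W 1 1 + extOp W (par (W.isInternal X)) 1 +
    extOp W 1 (par (W.isInternal Y)) +
    ((-1 : ℚ) : W.K) • extOp W (par (W.isInternal X)) (par (W.isInternal Y)))

lemma sgnOp_apply {i j : ℕ} {a : W.H X} (ha : a ∈ W.gr X i) {b : W.H Y} (hb : b ∈ W.gr Y j) :
    sgnOp W X Y (W.map (fst X Y) a * W.map (snd X Y) b) =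
      (-1 : W.K) ^ (i * j) • (W.map (fst X Y) a * W.map (snd X Y) b) := by
  rw [sgnOp, LinearMap.smul_apply, LinearMap.add_apply, LinearMap.add_apply, LinearMap.add_apply,
    LinearMap.smul_apply, extOp_tmul, extOp_tmul, extOp_tmul, extOp_tmul, Module.End.one_apply,
    Module.End.one_apply, par, par, scal_apply _ _ ha, scal_apply _ _ hb, map_smul, map_smul,
    smul_mul_assoc, mul_smul_comm, smul_mul_assoc, mul_smul_comm]
  rcases Nat.even_or_odd i with hi | hi <;> rcases Nat.even_or_odd j with hj | hj
  · rw [hi.neg_one_pow, hj.neg_one_pow, (hi.mul_right j).neg_one_pow]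
    push_cast
    module
  · rw [hi.neg_one_pow, hj.neg_one_pow, (hi.mul_right j).neg_one_pow]
    push_cast
    module
  · rw [hi.neg_one_pow, hj.neg_one_pow, (hj.mul_left i).neg_one_pow]
    push_cast
    module
  · rw [hi.neg_one_pow, hj.neg_one_pow, (hi.mul hj).neg_one_pow]
    push_cast
    module

/-- **Products.** -/
theorem Gd.prod (G : Gd W X D f) (G' : Gd W Y E g) :
    Gd W (X.prod Y) (ops.pull (fst X Y) D + ops.pull (snd X Y) E) (extSum W f g) := by
  have F := G.fr.prod G'.fr
  have hpar : par (W.isInternal (X.prod Y)) =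
      extOp W (par (W.isInternal X)) (par (W.isInternal Y)) := by
    apply LinearMap.ext
    intro c
    refine W.kunneth_induction (p := fun c => par (W.isInternal (X.prod Y)) c =
      extOp W (par (W.isInternal X)) (par (W.isInternal Y)) c) ?_ ?_ c
    · intro a b ha hb
      rw [map_add, ha, hb, map_add]
    · intro i j a ha b hb
      rw [extOp_tmul, par, par, par, scal_apply _ _ (W.mul_mem (W.map_mem _ ha)
        (W.map_mem _ hb)), scal_apply _ _ ha, scal_apply _ _ hb, map_smul, map_smul,
        smul_mul_assoc, mul_smul_comm, smul_smul, pow_add]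
  have hst : st W (X.prod Y) (ops.pull (fst X Y) D + ops.pull (snd X Y) E) (extSum W f g) =
      extOp W (st W X D f) (st W Y E g) * sgnOp W X Y := by
    apply LinearMap.ext
    intro c
    refine W.kunneth_induction (p := fun c => st W (X.prod Y)
      (ops.pull (fst X Y) D + ops.pull (snd X Y) E) (extSum W f g) c =
      (extOp W (st W X D f) (st W Y E g) * sgnOp W X Y) c) ?_ ?_ c
    · intro a b ha hb
      rw [map_add, ha, hb, map_add]
    · intro i j a ha b hb
      have hm : W.map (fst X Y) a * W.map (snd X Y) b ∈ W.gr (X.prod Y) (i + j) :=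
        W.mul_mem (W.map_mem _ ha) (W.map_mem _ hb)
      have hw : wop W (X.prod Y) (ops.pull (fst X Y) D + ops.pull (snd X Y) E) (extSum W f g) =
          extOp W (wop W X D f) (wop W Y E g) := by
        rw [wop, mulLeft_prod G'.fr.hD]
        exact wey_prod G.fr.sl2.nil_e G.fr.sl2.nil_f G'.fr.sl2.nil_e G'.fr.sl2.nil_f
      rw [st_apply hm, hw, extOp_tmul, Module.End.mul_apply, sgnOp_apply ha hb, map_smul,
        extOp_tmul, st_apply ha, st_apply hb, map_smul, map_smul, smul_mul_assoc, mul_smul_comm,
        smul_smul, smul_smul, sg_add]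
      congr 1
      push_cast
      ring
  refine ⟨F, ⟨mulLeft_isHom F.hD, W_hbd, Fr.hardLef F, F.sl2⟩, ?_, ?_⟩
  · rw [hst]
    have h1 : AOp W (X.prod Y) (X.prod Y) (extOp W 1 1 + extOp W (par (W.isInternal X)) 1 +
        extOp W 1 (par (W.isInternal Y)) +
        ((-1 : ℚ) : W.K) • extOp W (par (W.isInternal X)) (par (W.isInternal Y))) :=
      (((AOp.one.ext AOp.one).add (G.pa.ext AOp.one)).add (AOp.one.ext G'.pa)).add
        ((G.pa.ext G'.pa).smul _)
    exact (G.sa.ext G'.sa).mul (h1.smul _)
  · rw [hpar]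
    exact G.pa.ext G'.pa

end Pool.Agent.N202.HZ
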