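import Pool.Agent.N202.HZ.Tower
import Pool.Agent.Y129.Half.Pow

/-!
# Isomorphisms of polarized varieties
-/

open CategoryTheory AlgebraicGeometry Finset

universe u v

namespace Pool.Agent.N202.HZ

open Module
open Pool.Agent.H914 Pool.Agent.H914.VarClass Pool.Agent.H914.VarClass.Obj
  Pool.Agent.H914.WeilCohomology Pool.Agent.H281R3.HT Pool.Agent.W552 Pool.Agent.W539.Ker
open Pool.Agent.Y129.Half (prodCongr θ₃ prod_hom_ext)

variable {k : Type u} [Field k] {𝒱 : VarClass k} {ops : CycleOps 𝒱}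
  {W : WeilCohomology.{u, v} ops} {P Q R P' Q' : Polarized 𝒱}

/-- The isomorphism `θ` is compatible with the orientations and the polarizations. -/
structure IsPol (W : WeilCohomology.{u, v} ops) (P Q : Polarized 𝒱) (θ : P.X ≅ Q.X) : Prop where
  dim : P.X.dim = Q.X.dim
  tr : ∀ c, W.tr P.X (W.map θ.hom c) = W.tr Q.X c
  cl : W.map θ.hom (W.cl Q.X Q.D) = W.cl P.X P.D

/-- There is an isomorphism of polarized varieties. -/
def PolIso (W : WeilCohomology.{u, v} ops) (P Q : Polarized 𝒱) : Prop :=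
  ∃ θ, IsPol W P Q θ

lemma PolIso.refl (P : Polarized 𝒱) : PolIso W P P :=
  ⟨Iso.refl _, rfl, fun c => by rw [Iso.refl_hom, W.map_id], by rw [Iso.refl_hom, W.map_id]⟩

lemma map_inv_hom {X Y : 𝒱.Obj} (θ : X ≅ Y) (c : W.H Y) :
    W.map θ.inv (W.map θ.hom c) = c := by
  rw [← W.map_comp, θ.inv_hom_id, W.map_id]

lemma map_hom_inv {X Y : 𝒱.Obj} (θ : X ≅ Y) (c : W.H X) :
    W.map θ.hom (W.map θ.inv c) = c := by
  rw [← W.map_comp, θ.hom_inv_id, W.map_id]

lemma PolIso.symm (h : PolIso W P Q) : PolIso W Q P := by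
  obtain ⟨θ, h⟩ := h
  refine ⟨θ.symm, h.dim.symm, fun c => ?_, ?_⟩
  · rw [Iso.symm_hom, ← h.tr, map_hom_inv]
  · rw [Iso.symm_hom, ← h.cl, map_inv_hom]

lemma PolIso.trans (h : PolIso W P Q) (h' : PolIso W Q R) : PolIso W P R := by
  obtain ⟨θ, h⟩ := h
  obtain ⟨θ', h'⟩ := h'
  refine ⟨θ ≪≫ θ', h.dim.trans h'.dim, fun c => ?_, ?_⟩
  · rw [Iso.trans_hom, W.map_comp, h.tr, h'.tr]
  · rw [Iso.trans_hom, W.map_comp, h'.cl, h.cl]

lemma PolIso.prod (h : PolIso W P P') (h' : PolIso W Q Q') :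
    PolIso W (P.prod ops Q) (P'.prod ops Q') := by
  obtain ⟨θ, h⟩ := h
  obtain ⟨θ', h'⟩ := h'
  have e1 : (prodCongr θ θ').hom ≫ fst _ _ = fst _ _ ≫ θ.hom := Obj.lift_fst _ _
  have e2 : (prodCongr θ θ').hom ≫ snd _ _ = snd _ _ ≫ θ'.hom := Obj.lift_snd _ _
  refine ⟨prodCongr θ θ', ?_, fun c => ?_, ?_⟩
  · change P.X.dim + Q.X.dim = P'.X.dim + Q'.X.dim
    rw [h.dim, h'.dim]
  · change W.tr (P.X.prod Q.X) (W.map (prodCongr θ θ').hom c) = W.tr (P'.X.prod Q'.X) c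
    refine W.kunneth_induction (p := fun c =>
      W.tr (P.X.prod Q.X) (W.map (prodCongr θ θ').hom c) = W.tr (P'.X.prod Q'.X) c) ?_ ?_ c
    · intro a b ha hb
      rw [map_add, map_add, map_add, ha, hb]
    · intro i j a _ b _
      rw [map_mul (W.map (prodCongr θ θ').hom), ← W.map_comp, ← W.map_comp, e1, e2, W.map_comp,
        W.map_comp, W.tr_prod, W.tr_prod, h.tr, h'.tr]
  · change W.map (prodCongr θ θ').hom (W.cl (P'.X.prod Q'.X)
      (ops.pull (fst P'.X Q'.X) P'.D + ops.pull (snd P'.X Q'.X) Q'.D)) =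
      W.cl (P.X.prod Q.X) (ops.pull (fst P.X Q.X) P.D + ops.pull (snd P.X Q.X) Q.D)
    rw [map_add, map_add, W.cl_pull, W.cl_pull, map_add, W.cl_pull, W.cl_pull, ← W.map_comp,
      ← W.map_comp, e1, e2, W.map_comp, W.map_comp, h.cl, h'.cl]

lemma PolIso.assoc (P Q R : Polarized 𝒱) :
    PolIso W ((P.prod ops Q).prod ops R) (P.prod ops (Q.prod ops R)) := by
  have e1 : (θ₃ P.X Q.X R.X).hom ≫ fst P.X (Q.X.prod R.X) =
      fst (P.X.prod Q.X) R.X ≫ fst P.X Q.X := Obj.lift_fst _ _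
  have e2 : (θ₃ P.X Q.X R.X).hom ≫ snd P.X (Q.X.prod R.X) =
      Obj.lift (fst (P.X.prod Q.X) R.X ≫ snd P.X Q.X) (snd (P.X.prod Q.X) R.X) :=
    Obj.lift_snd _ _
  refine ⟨θ₃ P.X Q.X R.X, ?_, fun c => ?_, ?_⟩
  · change P.X.dim + Q.X.dim + R.X.dim = P.X.dim + (Q.X.dim + R.X.dim)
    ring
  · change W.tr ((P.X.prod Q.X).prod R.X) (W.map (θ₃ P.X Q.X R.X).hom c) =
      W.tr (P.X.prod (Q.X.prod R.X)) c
    refine W.kunneth_induction (p := fun c => W.tr ((P.X.prod Q.X).prod R.X)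
      (W.map (θ₃ P.X Q.X R.X).hom c) = W.tr (P.X.prod (Q.X.prod R.X)) c) ?_ ?_ c
    · intro a b ha hb
      rw [map_add, map_add, map_add, ha, hb]
    · intro i j a _ b _
      refine W.kunneth_induction (p := fun b => W.tr ((P.X.prod Q.X).prod R.X)
        (W.map (θ₃ P.X Q.X R.X).hom (W.map (fst P.X (Q.X.prod R.X)) a *
          W.map (snd P.X (Q.X.prod R.X)) b)) = W.tr (P.X.prod (Q.X.prod R.X))
        (W.map (fst P.X (Q.X.prod R.X)) a * W.map (snd P.X (Q.X.prod R.X)) b)) ?_ ?_ b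
      · intro b b' hb hb'
        rw [map_add, mul_add, map_add, map_add, map_add, hb, hb']
      · intro i' j' b _ c _
        rw [map_mul (W.map (θ₃ P.X Q.X R.X).hom), ← W.map_comp, ← W.map_comp, e1, e2,
          map_mul (W.map (Obj.lift (fst (P.X.prod Q.X) R.X ≫ snd P.X Q.X)
            (snd (P.X.prod Q.X) R.X))), ← W.map_comp, ← W.map_comp, Obj.lift_fst, Obj.lift_snd,
          W.map_comp, W.map_comp, ← mul_assoc, ← map_mul, W.tr_prod, W.tr_prod, W.tr_prod,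
          W.tr_prod, mul_assoc]
  · change W.map (θ₃ P.X Q.X R.X).hom (W.cl (P.X.prod (Q.X.prod R.X))
      (ops.pull (fst P.X (Q.X.prod R.X)) P.D + ops.pull (snd P.X (Q.X.prod R.X))
        (ops.pull (fst Q.X R.X) Q.D + ops.pull (snd Q.X R.X) R.D))) =
      W.cl ((P.X.prod Q.X).prod R.X) (ops.pull (fst (P.X.prod Q.X) R.X)
        (ops.pull (fst P.X Q.X) P.D + ops.pull (snd P.X Q.X) Q.D) +
        ops.pull (snd (P.X.prod Q.X) R.X) R.D)
    have f1 : ∀ x : W.H P.X, W.map (θ₃ P.X Q.X R.X).hom (W.map (fst P.X (Q.X.prod R.X)) x) =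
        W.map (fst (P.X.prod Q.X) R.X) (W.map (fst P.X Q.X) x) := fun x => by
      rw [← W.map_comp, ← W.map_comp, e1]
    have f2 : ∀ x : W.H Q.X, W.map (θ₃ P.X Q.X R.X).hom (W.map (snd P.X (Q.X.prod R.X))
        (W.map (fst Q.X R.X) x)) = W.map (fst (P.X.prod Q.X) R.X) (W.map (snd P.X Q.X) x) :=
      fun x => by
      rw [← W.map_comp, ← W.map_comp, ← W.map_comp, e2, Obj.lift_fst]
    have f3 : ∀ x : W.H R.X, W.map (θ₃ P.X Q.X R.X).hom (W.map (snd P.X (Q.X.prod R.X))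
        (W.map (snd Q.X R.X) x)) = W.map (snd (P.X.prod Q.X) R.X) x := fun x => by
      rw [← W.map_comp, ← W.map_comp, e2, Obj.lift_snd]
    have g1 : W.cl (P.X.prod (Q.X.prod R.X))
      (ops.pull (fst P.X (Q.X.prod R.X)) P.D + ops.pull (snd P.X (Q.X.prod R.X))
        (ops.pull (fst Q.X R.X) Q.D + ops.pull (snd Q.X R.X) R.D)) =
      W.map (fst P.X (Q.X.prod R.X)) (W.cl P.X P.D) + (W.map (snd P.X (Q.X.prod R.X))
        (W.map (fst Q.X R.X) (W.cl Q.X Q.D)) + W.map (snd P.X (Q.X.prod R.X))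
        (W.map (snd Q.X R.X) (W.cl R.X R.D))) := by
      rw [map_add, W.cl_pull, W.cl_pull, map_add, W.cl_pull, W.cl_pull, map_add]
    have g2 : W.cl ((P.X.prod Q.X).prod R.X) (ops.pull (fst (P.X.prod Q.X) R.X)
        (ops.pull (fst P.X Q.X) P.D + ops.pull (snd P.X Q.X) Q.D) +
        ops.pull (snd (P.X.prod Q.X) R.X) R.D) =
      (W.map (fst (P.X.prod Q.X) R.X) (W.map (fst P.X Q.X) (W.cl P.X P.D)) +
        W.map (fst (P.X.prod Q.X) R.X) (W.map (snd P.X Q.X) (W.cl Q.X Q.D))) +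
        W.map (snd (P.X.prod Q.X) R.X) (W.cl R.X R.D) := by
      rw [map_add, W.cl_pull, W.cl_pull, map_add, W.cl_pull, W.cl_pull, map_add]
    rw [g1, g2, map_add, map_add, f1, f2, f3, add_assoc]

section

variable {θ : P.X ≅ Q.X}

lemma IsPol.pow (h : IsPol W P Q θ) (m : ℕ) (x : W.H Q.X) :
    ((LinearMap.mulLeft W.K (W.cl P.X P.D)) ^ m) (W.map θ.hom x) =
      W.map θ.hom (((LinearMap.mulLeft W.K (W.cl Q.X Q.D)) ^ m) x) := by
  induction m generalizing x with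
  | zero => simp
  | succ m ih =>
    rw [pow_succ, Module.End.mul_apply, LinearMap.mulLeft_apply, ← h.cl, ← map_mul, h.cl, ih,
      pow_succ, Module.End.mul_apply, LinearMap.mulLeft_apply]

lemma PolIso.hasFamily (h : PolIso W P Q) (hP : P.X.IsCyc 1 P.D) (hQ : Q.X.IsCyc 1 Q.D) {n : ℕ}
    (hn : 2 * n ≤ P.X.dim) {s : ℚ} {r : ℕ} (hF : HasFamily W Q.X Q.D n s r) :
    HasFamily W P.X P.D n s r := by
  obtain ⟨θ, h⟩ := h
  obtain ⟨z, hz, hpos, horth⟩ := hF
  have hprim : ∀ i, Primitive W P.X P.D n (ops.pull θ.hom (z i)) := by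
    intro i
    refine ⟨ops.pull_mem _ (hz i).1, ?_⟩
    have h1 := (hz i).2
    rw [cl_divPow] at h1
    rw [cl_divPow, W.cl_pull, h.pow, h.dim, h1, map_zero]
  have hpair : ∀ i j, pairing ops P.X P.D n (ops.pull θ.hom (z i)) (ops.pull θ.hom (z j)) =
      pairing ops Q.X Q.D n (z i) (z j) := by
    intro i j
    have h1 : ((pairing ops P.X P.D n (ops.pull θ.hom (z i)) (ops.pull θ.hom (z j)) : ℚ) :
        W.K) = ((pairing ops Q.X Q.D n (z i) (z j) : ℚ) : W.K) := by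
      rw [pairing_cast hP hn (hprim i).1 (hprim j).1, pairing_cast hQ (by rw [← h.dim]; exact hn)
        (hz i).1 (hz j).1, W.cl_pull, W.cl_pull, h.pow, h.dim, ← map_mul, h.tr]
    exact_mod_cast h1
  exact ⟨fun i => ops.pull θ.hom (z i), hprim, fun i => by rw [hpair]; exact hpos i,
    fun i j hij => by rw [hpair]; exact horth i j hij⟩

end

lemma PolIso.dim_eq (h : PolIso W P Q) : P.X.dim = Q.X.dim := by
  obtain ⟨θ, h⟩ := h
  exact h.dim

lemma PolIso.hasFamily_iff (h : PolIso W P Q) (hP : P.X.IsCyc 1 P.D) (hQ : Q.X.IsCyc 1 Q.D)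
    {n : ℕ} (hn : 2 * n ≤ P.X.dim) {s : ℚ} {r : ℕ} :
    HasFamily W P.X P.D n s r ↔ HasFamily W Q.X Q.D n s r :=
  ⟨fun hF => h.symm.hasFamily hQ hP (by rw [← h.dim_eq]; exact hn) hF,
    fun hF => h.hasFamily hP hQ hn hF⟩

lemma PolIso.nPos_eq (h : PolIso W P Q) (hP : P.X.IsCyc 1 P.D) (hQ : Q.X.IsCyc 1 Q.D)
    {n : ℕ} (hn : 2 * n ≤ P.X.dim) : nPos W P.X P.D n = nPos W Q.X Q.D n := by
  rw [nPos, nPos]
  congr 1
  ext r
  exact h.hasFamily_iff hP hQ hn

lemma PolIso.nNeg_eq (h : PolIso W P Q) (hP : P.X.IsCyc 1 P.D) (hQ : Q.X.IsCyc 1 Q.D)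
    {n : ℕ} (hn : 2 * n ≤ P.X.dim) : nNeg W P.X P.D n = nNeg W Q.X Q.D n := by
  rw [nNeg, nNeg]
  congr 1
  ext r
  exact h.hasFamily_iff hP hQ hn

lemma PolIso.imbalance_eq (h : PolIso W P Q) (hP : P.X.IsCyc 1 P.D) (hQ : Q.X.IsCyc 1 Q.D) :
    imbalance W P.X P.D = imbalance W Q.X Q.D := by
  rw [imbalance, imbalance, ← h.dim_eq]
  apply Finset.sum_congr rfl
  intro n hn
  rw [Finset.mem_range] at hn
  rw [h.nPos_eq hP hQ (by omega), h.nNeg_eq hP hQ (by omega)]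

lemma PolIso.total_eq (h : PolIso W P Q) (hP : P.X.IsCyc 1 P.D) (hQ : Q.X.IsCyc 1 Q.D) :
    total W P.X P.D = total W Q.X Q.D := by
  rw [total, total, ← h.dim_eq]
  apply Finset.sum_congr rfl
  intro n hn
  rw [Finset.mem_range] at hn
  rw [h.nPos_eq hP hQ (by omega), h.nNeg_eq hP hQ (by omega)]

lemma isCyc_prod (hP : P.X.IsCyc 1 P.D) (hQ : Q.X.IsCyc 1 Q.D) :
    (P.prod ops Q).X.IsCyc 1 (P.prod ops Q).D :=
  SmVar.IsCyc.add (ops.pull_mem _ hP) (ops.pull_mem _ hQ)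

lemma isCyc_power (hP : P.X.IsCyc 1 P.D) (n : ℕ) :
    (power ops P n).X.IsCyc 1 (power ops P n).D := by
  induction n with
  | zero => exact hP
  | succ n ih => exact isCyc_prod ih hP

lemma isCyc_tower (hQ : Q.X.IsCyc 1 Q.D) (hR : R.X.IsCyc 1 R.D) (n : ℕ) :
    (tower ops Q R n).X.IsCyc 1 (tower ops Q R n).D := by
  induction n with
  | zero => exact hQ
  | succ n ih => exact isCyc_prod ih hR

/-- `P ^ (m + 1) × P ^ (n + 1) ≅ P ^ (m + n + 2)`. -/
lemma power_add (W : WeilCohomology.{u, v} ops) (P : Polarized 𝒱) (m n : ℕ) :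
    PolIso W ((power ops P m).prod ops (power ops P n)) (power ops P (m + n + 1)) := by
  induction n with
  | zero => exact PolIso.refl _
  | succ n ih =>
    exact (PolIso.assoc (power ops P m) (power ops P n) P).symm.trans (ih.prod (PolIso.refl P))

/-- `(Q × P ^ (r + 1)) × (P ^ (K + 1)) ^ q ≅ Q × P ^ (r + (K + 1) q + 1)`. -/
lemma tower_power (W : WeilCohomology.{u, v} ops) (Q P : Polarized 𝒱) (r K q : ℕ) :
    PolIso W (tower ops (Q.prod ops (power ops P r)) (power ops P K) q)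
      (Q.prod ops (power ops P (r + (K + 1) * q))) := by
  induction q with
  | zero => exact PolIso.refl _
  | succ q ih =>
    have h1 : PolIso W (tower ops (Q.prod ops (power ops P r)) (power ops P K) (q + 1))
        ((Q.prod ops (power ops P (r + (K + 1) * q))).prod ops (power ops P K)) :=
      ih.prod (PolIso.refl _)
    have h2 := h1.trans (PolIso.assoc Q (power ops P (r + (K + 1) * q)) (power ops P K))
    have h3 := h2.trans ((PolIso.refl Q).prod (power_add W P (r + (K + 1) * q) K))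
    rwa [show r + (K + 1) * q + K + 1 = r + (K + 1) * (q + 1) by ring] at h3

end Pool.Agent.N202.HZ
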