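import Pool.Agent.N202.HZ.Perm
import Pool.Agent.N202.HZ.Iso

/-!
# The growth of the number of squares
-/

open CategoryTheory AlgebraicGeometry Finset

universe u v

namespace Pool.Agent.N202.HZ

open Module
open Pool.Agent.H914 Pool.Agent.H914.VarClass Pool.Agent.H914.VarClass.Obj
  Pool.Agent.H914.WeilCohomology Pool.Agent.H281R3.HT Pool.Agent.W552 Pool.Agent.W539.Ker
open Pool.Agent.Y129.Half (pw prj pfst psnd tau tau_prj rho PH wb wb_eq exists_hbasis prj_last
  prj_castSucc finrank_pw)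

section OM

variable {M : Type*} [AddCommGroup M] [Module ℚ M] {B : M →ₗ[ℚ] M →ₗ[ℚ] ℚ}

/-- The form in terms of a maximal orthogonal family. -/
lemma OM_expand (hB : ∀ x y, B x y = B y x) {ι : Type*} [Fintype ι] {x : ι → M} (h : OM B x)
    (u v : M) : B u v = ∑ i, B u (x i) * B v (x i) / B (x i) (x i) := by
  classical
  have hp : ∀ u : M, ∃ p : M, (∀ i, B p (x i) = B u (x i)) ∧
      ∀ w, B w p = ∑ i, B w (x i) * B u (x i) / B (x i) (x i) := by
    intro u
    refine ⟨∑ i, (B u (x i) / B (x i) (x i)) • x i, ?_, ?_⟩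
    · intro i
      rw [map_sum B, LinearMap.sum_apply, Finset.sum_eq_single i]
      · rw [map_smul, LinearMap.smul_apply, smul_eq_mul, div_mul_cancel₀ _ (h.ne i)]
      · intro j _ hj
        rw [map_smul, LinearMap.smul_apply, h.orth j i hj, smul_zero]
      · intro h0; exact absurd (Finset.mem_univ _) h0
    · intro w
      rw [map_sum]
      apply Finset.sum_congr rfl
      intro i _
      rw [map_smul, smul_eq_mul]; ring
  obtain ⟨p, hp1, hp2⟩ := hp u
  obtain ⟨q, hq1, hq2⟩ := hp v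
  have hR : ∀ w w' : M, (∀ i, B w (x i) = 0) → (∀ i, B w' (x i) = 0) → B w w' = 0 := by
    intro w w' hw hw'
    have h1 := h.max w hw
    have h2 := h.max w' hw'
    have h3 := h.max (w + w') (fun i => by rw [map_add, LinearMap.add_apply, hw, hw', add_zero])
    rw [map_add, map_add, LinearMap.add_apply, LinearMap.add_apply, h1, h2, hB w' w] at h3
    linarith
  have h1 : ∀ i, B (u - p) (x i) = 0 := fun i => by
    rw [map_sub, LinearMap.sub_apply, hp1, sub_self]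
  have h2 : ∀ i, B (v - q) (x i) = 0 := fun i => by
    rw [map_sub, LinearMap.sub_apply, hq1, sub_self]
  have h3 := hR _ _ h1 h2
  have h4 : B (u - p) q = 0 := by
    rw [hq2]
    apply Finset.sum_eq_zero
    intro i _
    rw [h1, zero_mul, zero_div]
  rw [map_sub] at h3
  have h5 : B (u - p) v = 0 := by linarith
  have h6 : B u v = B v p := by
    rw [map_sub, LinearMap.sub_apply] at h5
    rw [hB v p]
    linarith
  rw [h6, hp2]
  apply Finset.sum_congr rfl
  intro i _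
  ring

/-- The number of members of any orthogonal family is at most the number of members of a maximal
orthogonal family. -/
lemma OM_card_le (hB : ∀ x y, B x y = B y x) {ι : Type*} [Fintype ι] {x : ι → M} (h : OM B x)
    {κ : Type*} [Fintype κ] {z : κ → M} (h1 : ∀ i, B (z i) (z i) ≠ 0)
    (h2 : ∀ i j, i ≠ j → B (z i) (z j) = 0) : Fintype.card κ ≤ Fintype.card ι := by
  classical
  let F : (κ → ℚ) →ₗ[ℚ] (ι → ℚ) :=
    LinearMap.pi (fun i => (B.flip (x i)) ∘ₗ Fintype.linearCombination ℚ z)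
  have hF : Function.Injective F := by
    rw [← LinearMap.ker_eq_bot, LinearMap.ker_eq_bot']
    intro c hc
    set w := Fintype.linearCombination ℚ z c with hw
    have h3 : ∀ i, B w (x i) = 0 := fun i => congrFun hc i
    funext j
    have h4 : B w (z j) = c j * B (z j) (z j) := by
      rw [hw, Fintype.linearCombination_apply, map_sum B, LinearMap.sum_apply,
        Finset.sum_eq_single j]
      · rw [map_smul, LinearMap.smul_apply, smul_eq_mul]
      · intro i _ hi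
        rw [map_smul, LinearMap.smul_apply, h2 i j hi, smul_zero]
      · intro h0; exact absurd (Finset.mem_univ _) h0
    have h5 : B w (z j) = 0 := by
      rw [OM_expand hB h]
      apply Finset.sum_eq_zero
      intro i _
      rw [h3, zero_mul, zero_div]
    rw [h5] at h4
    exact (mul_eq_zero.1 h4.symm).resolve_right (h1 j)
  have h3 := LinearMap.finrank_le_finrank_of_injective hF
  rwa [Module.finrank_fintype_fun_eq_card, Module.finrank_fintype_fun_eq_card] at h3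

end OM

variable {k : Type u} [Field k] {𝒱 : VarClass k} {ops : CycleOps 𝒱}
  {W : WeilCohomology.{u, v} ops} {X Y Z : 𝒱.Obj} {D : X.Cycles} {f : Module.End W.K (W.H X)}

/-- In weight `0` or `1`, all primitive cycles contribute. -/
lemma wsum_total (d : ℕ) (σ : ℕ → ℤ) {m : ℤ} (h0 : 0 ≤ m) (h1 : m ≤ 1) (h2 : (2 : ℤ) ∣ d + m) :
    wsum d σ m = ∑ n ∈ range (d / 2 + 1), σ n := by
  rw [wsum]
  apply Finset.sum_congr rfl
  intro n hn
  rw [Finset.mem_range] at hn
  rw [if_pos]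
  refine ⟨?_, h2⟩
  rw [abs_of_nonneg h0]
  omega

lemma card_eq_total {ι : Type} [Fintype ι] {m : ℤ} (h0 : 0 ≤ m) (h1 : m ≤ 1)
    (h2 : (2 : ℤ) ∣ X.dim + m)
    (h : (Fintype.card ι : ℤ) = wsum X.dim (fun n => (nPos W X D n : ℤ) + nNeg W X D n) m) :
    Fintype.card ι = total W X D := by
  rw [wsum_total _ _ h0 h1 h2] at h
  rw [total]
  exact_mod_cast h

attribute [local instance] ratMod

/-- **Growth.** -/
theorem growth_pw (G : Gd W X D f) (n : ℕ) : finrank W.K (W.H X) ^ (2 * (n + 1)) ≤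
    total W ((pw X n).prod (pw X n)) (ops.pull (fst (pw X n) (pw X n)) (dpw ops D n) +
      ops.pull (snd (pw X n) (pw X n)) (dpw ops D n)) *
      (n + 2) ^ (finrank W.K (W.H X) ^ 2) := by
  classical
  obtain ⟨f', G'⟩ := exists_gd_pw (ops := ops) G n
  obtain ⟨N, hN⟩ : ∃ N, N = finrank W.K (W.H X) := ⟨_, rfl⟩
  rw [← hN]
  obtain ⟨e, he⟩ : ∃ e : Basis (Fin N) W.K (W.H X), ∀ j, ∃ a, e j ∈ PH W X a := by
    rw [hN]
    exact exists_hbasis W X
  have F := G'.fr.prod G'.fr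
  have S := Sy.prod G'.fr G'.fr G'.sy G'.sy
  obtain ⟨ι, hι, x, hx, -, hcard⟩ := exists_OM1 F 0
  have hcard' : Fintype.card ι = total W ((pw X n).prod (pw X n))
      (ops.pull (fst (pw X n) (pw X n)) (dpw ops D n) +
        ops.pull (snd (pw X n) (pw X n)) (dpw ops D n)) :=
    card_eq_total le_rfl zero_le_one (by
      rw [dim_prod]
      exact ⟨(pw X n).dim, by push_cast; ring⟩) hcard
  choose t ht1 ht2 using exists_trace e he n
  have hθ : ∀ σ, W.map (tau X n σ) (W.cl (pw X n) (dpw ops D n)) = W.cl (pw X n) (dpw ops D n) := tau_cl W D n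
  have hinv : ∀ (σ : Equiv.Perm (Fin (n + 1))) (b : W.H (pw X n)),
      W.map (tau X n σ) (W.map (tau X n σ⁻¹) b) = b := by
    intro σ b
    have h1 : rho W X n σ * rho W X n σ⁻¹ = 1 := by rw [← map_mul, mul_inv_cancel, map_one]
    exact congrArg (fun T => T b) h1
  have hmem : ∀ σ : Equiv.Perm (Fin (n + 1)), gcl W (tau X n σ) ∈ AM W ((pw X n).prod (pw X n)) 0 := by
    intro σ
    refine ⟨gcl_AS _, hm_corr.1 ?_⟩
    rw [corr_gcl]
    exact hm_map _
  let c : Equiv.Perm (Fin (n + 1)) → AM W ((pw X n).prod (pw X n)) 0 := fun σ => ⟨_, hmem σ⟩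
  have hA : ∀ σ τ, A1 F 0 (c σ) (c τ) = (t (σ⁻¹ * τ) : ℚ) := by
    intro σ τ
    have h1 := G'.trace_corr G' (c := gcl W (tau X n τ)) (c' := gcl W (tau X n σ)) (gcl_AS _)
      (gcl_AS _) (u' := rho W X n σ⁻¹) (by
        intro a b
        rw [corr_gcl]
        change bf W (pw X n) (dpw ops D n) f' (W.map (tau X n σ) a) b = bf W (pw X n) (dpw ops D n) f' a (W.map (tau X n σ⁻¹) b)
        rw [← bf_map G' (hθ σ) a, hinv])
    have h2 : rho W X n σ⁻¹ ∘ₗ W.corr (gcl W (tau X n τ)) = rho W X n (σ⁻¹ * τ) := by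
      rw [corr_gcl, map_mul]
      rfl
    rw [h2, ht1] at h1
    have h3 := A1_cast F 0 (c σ) (c τ)
    have h4 : ((A1 F 0 (c σ) (c τ) : ℚ) : W.K) = (((t (σ⁻¹ * τ) : ℤ) : ℚ) : W.K) := by
      rw [h3, Rat.cast_intCast, h1]
    exact_mod_cast h4
  have hsym : ∀ σ τ, t (σ⁻¹ * τ) = t (τ⁻¹ * σ) := by
    intro σ τ
    have h1 := A1_symm F S 0 (c σ) (c τ)
    rw [hA, hA] at h1
    exact_mod_cast h1
  have ht0 : t 1 = (N : ℤ) ^ (n + 1) := by
    have h1 := ht1 1
    rw [map_one, Module.End.one_eq_id, LinearMap.trace_id, finrank_pw, ← hN] at h1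
    have h2 : ((N ^ (n + 1) : ℕ) : W.K) = (((t 1 : ℤ)) : W.K) := h1
    have h3 : ((N ^ (n + 1) : ℕ) : ℤ) = t 1 := by exact_mod_cast h2
    rw [← h3]
    push_cast
    rfl
  let Gm : Matrix (Equiv.Perm (Fin (n + 1))) (Equiv.Perm (Fin (n + 1))) ℝ :=
    Matrix.of fun σ τ => (t (σ⁻¹ * τ) : ℝ)
  have hG : Gm.IsHermitian := by
    ext σ τ
    change star ((t (τ⁻¹ * σ) : ℤ) : ℝ) = ((t (σ⁻¹ * τ) : ℤ) : ℝ)
    rw [star_trivial, hsym]
  have hrank : Gm.rank ≤ Fintype.card ι := by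
    refine rank_le_card (A := Matrix.of fun σ i => ((A1 F 0 (c σ) (x i) : ℚ) : ℝ))
      (d := fun i => ((A1 F 0 (x i) (x i) : ℚ) : ℝ)⁻¹) ?_
    ext σ τ
    rw [Matrix.mul_apply]
    change ((t (σ⁻¹ * τ) : ℤ) : ℝ) = _
    have h1 := hA σ τ
    rw [OM_expand (A1_symm F S 0) hx] at h1
    have h2 : ((t (σ⁻¹ * τ) : ℤ) : ℝ) = ((t (σ⁻¹ * τ) : ℚ) : ℝ) := by push_cast; rfl
    rw [h2, ← h1, Rat.cast_sum]
    apply Finset.sum_congr rfl
    intro i _
    rw [Matrix.mul_diagonal, Matrix.transpose_apply, Matrix.of_apply, Matrix.of_apply]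
    push_cast
    ring
  have htr : Gm.trace = ((n + 1).factorial : ℝ) * (N : ℝ) ^ (n + 1) := by
    have h1 : ∀ σ : Equiv.Perm (Fin (n + 1)), Gm σ σ = (N : ℝ) ^ (n + 1) := by
      intro σ
      change ((t (σ⁻¹ * σ) : ℤ) : ℝ) = _
      rw [inv_mul_cancel, ht0]
      push_cast
      rfl
    have h2 : Gm.trace = ∑ σ : Equiv.Perm (Fin (n + 1)), (N : ℝ) ^ (n + 1) :=
      Finset.sum_congr rfl fun σ _ => h1 σ
    rw [h2, Finset.sum_const, Finset.card_univ, Fintype.card_perm, Fintype.card_fin,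
      nsmul_eq_mul]
  have htr2 : (Gm * Gm).trace ≤ ((n + 1).factorial : ℝ) *
      (((n + 1).factorial : ℝ) * ((n : ℝ) + 2) ^ (N ^ 2)) := by
    have h1 : (Gm * Gm).trace = ∑ σ : Equiv.Perm (Fin (n + 1)),
        ∑ τ : Equiv.Perm (Fin (n + 1)), ((t τ : ℤ) : ℝ) ^ 2 := by
      rw [Matrix.trace]
      apply Finset.sum_congr rfl
      intro σ _
      rw [Matrix.diag_apply, Matrix.mul_apply, ← Equiv.sum_comp (Equiv.mulLeft σ⁻¹)
        (fun τ => ((t τ : ℤ) : ℝ) ^ 2)]
      apply Finset.sum_congr rfl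
      intro τ _
      change ((t (σ⁻¹ * τ) : ℤ) : ℝ) * ((t (τ⁻¹ * σ) : ℤ) : ℝ) = ((t (σ⁻¹ * τ) : ℤ) : ℝ) ^ 2
      rw [hsym τ σ, sq]
    rw [h1, Finset.sum_const, Finset.card_univ, Fintype.card_perm, Fintype.card_fin,
      nsmul_eq_mul]
    apply mul_le_mul_of_nonneg_left _ (Nat.cast_nonneg _)
    have h2 : ∀ τ : Equiv.Perm (Fin (n + 1)), ((t τ : ℤ) : ℝ) ^ 2 ≤
        ((nfix (Fin N) (n + 1) τ ^ 2 : ℕ) : ℝ) := by
      intro τ
      have h3 : |((t τ : ℤ) : ℝ)| ≤ (nfix (Fin N) (n + 1) τ : ℝ) := by exact_mod_cast ht2 τ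
      rw [← sq_abs]
      push_cast
      exact pow_le_pow_left₀ (abs_nonneg _) h3 2
    refine (Finset.sum_le_sum fun τ _ => h2 τ).trans ?_
    have h3 := sum_nfix_sq_le (Fin N) (n + 1)
    rw [Fintype.card_fin] at h3
    have h4 : ((∑ τ : Equiv.Perm (Fin (n + 1)), nfix (Fin N) (n + 1) τ ^ 2 : ℕ) : ℝ) ≤
        (((n + 1).factorial * (n + 1 + 1) ^ (N ^ 2) : ℕ) : ℝ) := by exact_mod_cast h3
    rw [Nat.cast_sum] at h4
    refine h4.trans (le_of_eq ?_)
    push_cast
    ring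
  have hmain := trace_sq_le hG
  rw [htr] at hmain
  have hr : (Gm.rank : ℝ) ≤ Fintype.card ι := by exact_mod_cast hrank
  have hnn : 0 ≤ (Gm * Gm).trace := by
    rw [Matrix.trace]
    apply Finset.sum_nonneg
    intro σ _
    rw [Matrix.diag_apply, Matrix.mul_apply]
    apply Finset.sum_nonneg
    intro τ _
    change 0 ≤ ((t (σ⁻¹ * τ) : ℤ) : ℝ) * ((t (τ⁻¹ * σ) : ℤ) : ℝ)
    rw [hsym τ σ]
    exact mul_self_nonneg _
  have h5 : (((n + 1).factorial : ℝ) * (N : ℝ) ^ (n + 1)) ^ 2 ≤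
      (Fintype.card ι : ℝ) * (((n + 1).factorial : ℝ) *
        (((n + 1).factorial : ℝ) * ((n : ℝ) + 2) ^ (N ^ 2))) :=
    hmain.trans ((mul_le_mul_of_nonneg_right hr hnn).trans
      (mul_le_mul_of_nonneg_left htr2 (Nat.cast_nonneg _)))
  have h6 : (0 : ℝ) < ((n + 1).factorial : ℝ) ^ 2 := by positivity
  have h7 : ((n + 1).factorial : ℝ) ^ 2 * (N : ℝ) ^ (2 * (n + 1)) ≤
      ((n + 1).factorial : ℝ) ^ 2 * ((Fintype.card ι : ℝ) * ((n : ℝ) + 2) ^ (N ^ 2)) := by
    calc ((n + 1).factorial : ℝ) ^ 2 * (N : ℝ) ^ (2 * (n + 1)) =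
        (((n + 1).factorial : ℝ) * (N : ℝ) ^ (n + 1)) ^ 2 := by ring
      _ ≤ _ := h5
      _ = _ := by ring
  have h8 := le_of_mul_le_mul_left h7 h6
  rw [← hcard']
  exact_mod_cast h8

/-- **Growth, for polarized varieties.** -/
theorem growth_power {P : Polarized 𝒱} {f : Module.End W.K (W.H P.X)} (G : Gd W P.X P.D f)
    (n : ℕ) : finrank W.K (W.H P.X) ^ (2 * (n + 1)) ≤
    total W (power ops P (2 * n + 1)).X (power ops P (2 * n + 1)).D *
      (n + 2) ^ (finrank W.K (W.H P.X) ^ 2) := by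
  have h1 := growth_pw (ops := ops) G n
  have h2 := (power_add W P n n).total_eq (isCyc_prod (isCyc_power G.fr.hD n)
    (isCyc_power G.fr.hD n)) (isCyc_power G.fr.hD _)
  rw [show 2 * n + 1 = n + n + 1 by ring, ← h2, power_eq]
  exact h1

end Pool.Agent.N202.HZ
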