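import Pool.Agent.N202.HZ.Grow

/-!
# The zero-one-half law
-/

open CategoryTheory AlgebraicGeometry Finset

universe u v

namespace Pool.Agent.N202.HZ

open Module
open Pool.Agent.H914 Pool.Agent.H914.VarClass Pool.Agent.H914.VarClass.Obj
  Pool.Agent.H914.WeilCohomology Pool.Agent.H281R3.HT Pool.Agent.W552 Pool.Agent.W539.Ker

variable {k : Type u} [Field k] {𝒱 : VarClass k} {ops : CycleOps 𝒱}
  {W : WeilCohomology.{u, v} ops} {X Y Z : 𝒱.Obj} {D : X.Cycles} {f : Module.End W.K (W.H X)}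

section Positive

/-- The degree of the top power of the polarization of a product is positive. -/
lemma deg_prod {E : Y.Cycles} {g : Module.End W.K (W.H Y)} (F : Fr W X D f) (F' : Fr W Y E g)
    (h : 0 < X.V.degCycle (divPow ops D X.dim X.V.fundCycle))
    (h' : 0 < Y.V.degCycle (divPow ops E Y.dim Y.V.fundCycle)) :
    0 < (X.prod Y).V.degCycle (divPow ops (ops.pull (fst X Y) D + ops.pull (snd X Y) E)
      (X.prod Y).dim (X.prod Y).V.fundCycle) := by
  have e1 := bf_pow_one F (i := 0) (by omega)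
  have e2 := bf_pow_one F' (i := 0) (by omega)
  have e3 := bf_pow_one (F.prod F') (i := 0) (by omega)
  have e4 := F.bf_ext F' 1 1 1 1
  rw [pow_zero, Module.End.one_apply] at e1 e2 e3
  have e5 : ext W (1 : W.H X) (1 : W.H Y) = 1 := by
    rw [H281R3.HT.ext, map_one, map_one, one_mul]
  rw [e5, e3, e1, e2, ← Rat.cast_mul] at e4
  have e6 : ((Nat.factorial 0 : ℕ) * (((X.prod Y).dim - 0).factorial : ℚ)⁻¹ *
      (X.prod Y).V.degCycle (divPow ops (ops.pull (fst X Y) D + ops.pull (snd X Y) E)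
        (X.prod Y).dim (X.prod Y).V.fundCycle)) =
      ((Nat.factorial 0 : ℕ) * ((X.dim - 0).factorial : ℚ)⁻¹ *
        X.V.degCycle (divPow ops D X.dim X.V.fundCycle)) *
      ((Nat.factorial 0 : ℕ) * ((Y.dim - 0).factorial : ℚ)⁻¹ *
        Y.V.degCycle (divPow ops E Y.dim Y.V.fundCycle)) := by exact_mod_cast e4
  have h1 : (0 : ℚ) < (Nat.factorial 0 : ℕ) * (((X.prod Y).dim - 0).factorial : ℚ)⁻¹ := by
    positivity
  have h2 : (0 : ℚ) < ((Nat.factorial 0 : ℕ) * (((X.prod Y).dim - 0).factorial : ℚ)⁻¹) *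
      (X.prod Y).V.degCycle (divPow ops (ops.pull (fst X Y) D + ops.pull (snd X Y) E)
        (X.prod Y).dim (X.prod Y).V.fundCycle) := by
    rw [e6]
    positivity
  exact (mul_pos_iff_of_pos_left h1).1 h2

lemma exists_gd_power {P : Polarized 𝒱} {f : Module.End W.K (W.H P.X)} (G : Gd W P.X P.D f)
    (n : ℕ) : ∃ f', Gd W (power ops P n).X (power ops P n).D f' := by
  induction n with
  | zero => exact ⟨f, G⟩
  | succ n ih =>
    obtain ⟨f', G'⟩ := ih
    exact ⟨_, Gd.prod G' G⟩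

lemma deg_power {P : Polarized 𝒱} {f : Module.End W.K (W.H P.X)} (G : Gd W P.X P.D f)
    (h : 0 < P.X.V.degCycle (divPow ops P.D P.X.dim P.X.V.fundCycle)) (n : ℕ) :
    0 < (power ops P n).X.V.degCycle (divPow ops (power ops P n).D (power ops P n).X.dim
      (power ops P n).X.V.fundCycle) := by
  induction n with
  | zero => exact h
  | succ n ih =>
    obtain ⟨f', G'⟩ := exists_gd_power (ops := ops) G n
    exact deg_prod G'.fr G.fr ih h

end Positive

lemma finrank_power (W : WeilCohomology.{u, v} ops) (P : Polarized 𝒱) (n : ℕ) :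
    finrank W.K (W.H (power ops P n).X) = finrank W.K (W.H P.X) ^ (n + 1) := by
  rw [power_eq]
  exact Y129.Half.finrank_pw P.X n

/-- **The bound for the signatures.** -/
theorem imbalance_power_le {Q P : Polarized 𝒱} {f₀ : Module.End W.K (W.H Q.X)}
    (G₀ : Gd W Q.X Q.D f₀) {f : Module.End W.K (W.H P.X)} (G : Gd W P.X P.D f)
    (hdeg : 0 < P.X.V.degCycle (divPow ops P.D P.X.dim P.X.V.fundCycle)) {K i : ℕ}
    (hi : 2 * i ≤ (power ops P K).X.dim)
    (h : HasFamily W (power ops P K).X (power ops P K).D i (-1) 1) (n : ℕ) :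
    imbalance W (Q.prod ops (power ops P n)).X (Q.prod ops (power ops P n)).D ≤
      finrank W.K (W.H Q.X) * finrank W.K (W.H P.X) ^ (n % (K + 1) + 1) *
        (finrank W.K (W.H P.X) ^ (K + 1) - 2) ^ (n / (K + 1)) := by
  obtain ⟨f₁, G₁⟩ := exists_gd_power (ops := ops) G K
  obtain ⟨f₂, G₂⟩ := exists_gd_power (ops := ops) G (n % (K + 1))
  have h1 := imbalance_tower_le (ops := ops) (Q := Q.prod ops (power ops P (n % (K + 1))))
    (Gd.prod G₀ G₂) G₁ (deg_power G hdeg K) hi h (n / (K + 1))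
  have h2 := (tower_power W Q P (n % (K + 1)) K (n / (K + 1))).imbalance_eq
    (isCyc_tower (isCyc_prod G₀.fr.hD (isCyc_power G.fr.hD _)) (isCyc_power G.fr.hD _) _)
    (isCyc_prod G₀.fr.hD (isCyc_power G.fr.hD _))
  rw [h2, Nat.mod_add_div] at h1
  have h3 : finrank W.K (W.H (Q.prod ops (power ops P (n % (K + 1)))).X) =
      finrank W.K (W.H Q.X) * finrank W.K (W.H P.X) ^ (n % (K + 1) + 1) := by
    have : finrank W.K (W.H (Q.prod ops (power ops P (n % (K + 1)))).X) =
      finrank W.K (W.H Q.X) * finrank W.K (W.H (power ops P (n % (K + 1))).X) :=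
      Y129.Half.finrank_prod _ _
    rw [this, finrank_power]
  rwa [h3, finrank_power] at h1

attribute [local instance] ratMod

/-- **Multiplication by a polarized variety does not decrease the number of squares.** -/
theorem total_le_prod {Q Z : Polarized 𝒱} {f : Module.End W.K (W.H Q.X)}
    (F : Fr W Q.X Q.D f) (hdeg : 0 < Q.X.V.degCycle (divPow ops Q.D Q.X.dim Q.X.V.fundCycle))
    {g : Module.End W.K (W.H Z.X)} (F' : Fr W Z.X Z.D g) (S' : Sy W Z.X Z.D g)
    (S : Sy W Q.X Q.D f) (hZ : (2 : ℤ) ∣ Z.X.dim) :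
    total W Z.X Z.D ≤ total W (Q.prod ops Z).X (Q.prod ops Z).D := by
  obtain ⟨i, w, hw0, hw1, hi, hiw⟩ : ∃ (i : ℕ) (w : ℤ), 0 ≤ w ∧ w ≤ 1 ∧ i ≤ Q.X.dim ∧
      (2 * i : ℤ) = Q.X.dim + w :=
    ⟨(Q.X.dim + 1) / 2, (Q.X.dim : ℤ) % 2, by omega, by omega, by omega, by omega⟩
  obtain ⟨ι, hι, x, hx, -, hcard⟩ := exists_OM1 F' 0
  have hcardZ : Fintype.card ι = total W Z.X Z.D :=
    card_eq_total le_rfl zero_le_one (by rwa [add_zero]) hcard
  obtain ⟨κ, hκ, y, hy, -, hcard'⟩ := exists_OM1 (F.prod F') w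
  have hcardQ : Fintype.card κ = total W (Q.prod ops Z).X (Q.prod ops Z).D :=
    card_eq_total (X := (Q.prod ops Z).X) hw0 hw1 (by
      have : (Q.prod ops Z).X.dim = Q.X.dim + Z.X.dim := rfl
      rw [this]
      omega) hcard'
  set ξ : W.H Q.X := ((LinearMap.mulLeft W.K (W.cl Q.X Q.D)) ^ i) 1 with hξ
  have hξA : ξ ∈ algClasses W Q.X i := AS_pow_one F i
  have hξw : wt (W.isInternal Q.X) Q.X.dim ξ = (w : W.K) • ξ := by
    rw [Fr.wt_gr (alg_gr hξA)]
    congr 1
    have h1 : ((2 * i : ℤ) : W.K) = ((Q.X.dim + w : ℤ) : W.K) := by rw [hiw]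
    push_cast at h1 ⊢
    linear_combination h1
  set b : ℚ := i.factorial * ((Q.X.dim - i).factorial : ℚ)⁻¹ *
    Q.X.V.degCycle (divPow ops Q.D Q.X.dim Q.X.V.fundCycle) with hb
  have hb0 : 0 < b := by positivity
  have hbb : bf W Q.X Q.D f ξ ξ = (b : W.K) := bf_pow_one F hi
  have hmem : ∀ j, ext W ξ (x j : W.H Z.X) ∈ AM W (Q.X.prod Z.X) w := by
    intro j
    refine ⟨(AS.of hξA).ext (x j).2.1, ?_⟩
    rw [wt_prod, H281R3.HT.ext, extSum_tmul, hξw, (x j).2.2, map_smul, map_smul, Int.cast_zero,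
      zero_smul, mul_zero, add_zero, smul_mul_assoc]
  have hA : ∀ j l, A1 (F.prod F') w ⟨_, hmem j⟩ ⟨_, hmem l⟩ = b * A1 F' 0 (x j) (x l) := by
    intro j l
    have h1 : ((A1 (F.prod F') w ⟨_, hmem j⟩ ⟨_, hmem l⟩ : ℚ) : W.K) =
        ((b * A1 F' 0 (x j) (x l) : ℚ) : W.K) := by
      rw [A1_cast, Rat.cast_mul, A1_cast, ← hbb]
      exact F.bf_ext F' _ _ _ _
    exact_mod_cast h1
  rw [← hcardZ, ← hcardQ]
  refine OM_card_le (A1_symm (F.prod F') (Sy.prod F F' S S') w) hy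
    (z := fun j => ⟨_, hmem j⟩) ?_ ?_
  · intro j
    rw [hA]
    exact mul_ne_zero hb0.ne' (hx.ne j)
  · intro j l hjl
    rw [hA, hx.orth j l hjl, mul_zero]

lemma dim_power (P : Polarized 𝒱) (n : ℕ) : (power ops P n).X.dim = (n + 1) * P.X.dim := by
  induction n with
  | zero => change P.X.dim = _; ring
  | succ n ih =>
    have : (power ops P (n + 1)).X.dim = (power ops P n).X.dim + P.X.dim := rfl
    rw [this, ih]
    ring

lemma one_le_total {f : Module.End W.K (W.H X)} (G : Gd W X D f)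
    (hdeg : 0 < X.V.degCycle (divPow ops D X.dim X.V.fundCycle)) : 1 ≤ total W X D := by
  have h1 : HasFamily W X D 0 1 1 := by
    refine ⟨fun _ => X.V.fundCycle, fun _ => prim_fund G.fr.hD, fun _ => ?_, fun i j hij => ?_⟩
    · rw [one_mul, pairing_fund W G.fr.hD]
      exact hdeg
    · exact absurd (Subsingleton.elim i j) hij
  have h2 : 1 ≤ nPos W X D 0 :=
    le_csSup (bddAbove_family W G.fr.hD (n := 0) (by omega)).1 h1
  calc 1 ≤ nPos W X D 0 + nNeg W X D 0 := by omega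
    _ ≤ _ := Finset.single_le_sum (f := fun n => nPos W X D n + nNeg W X D n)
        (fun _ _ => Nat.zero_le _) (Finset.mem_range.2 (by omega))

/-- **Growth of the number of squares.** -/
theorem growth_le {Q P : Polarized 𝒱} {f₀ : Module.End W.K (W.H Q.X)}
    (G₀ : Gd W Q.X Q.D f₀) (hdeg₀ : 0 < Q.X.V.degCycle (divPow ops Q.D Q.X.dim Q.X.V.fundCycle))
    {f : Module.End W.K (W.H P.X)} (G : Gd W P.X P.D f)
    (hdeg : 0 < P.X.V.degCycle (divPow ops P.D P.X.dim P.X.V.fundCycle))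
    (hN : 1 ≤ finrank W.K (W.H P.X)) (n : ℕ) :
    finrank W.K (W.H P.X) ^ n ≤
      total W (Q.prod ops (power ops P n)).X (Q.prod ops (power ops P n)).D *
        (n + 2) ^ (finrank W.K (W.H P.X) ^ 2) := by
  set N := finrank W.K (W.H P.X) with hNdef
  rcases Nat.even_or_odd' n with ⟨m, rfl | rfl⟩
  · rcases Nat.eq_zero_or_pos m with rfl | hm
    · rw [mul_zero, pow_zero]
      have h1 : 1 ≤ total W (Q.prod ops (power ops P 0)).X (Q.prod ops (power ops P 0)).D :=
        one_le_total (Gd.prod G₀ G) (deg_prod G₀.fr G.fr hdeg₀ hdeg)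
      exact Nat.mul_pos h1 (by positivity)
    · obtain ⟨l, rfl⟩ : ∃ l, m = l + 1 := ⟨m - 1, by omega⟩
      obtain ⟨f₁, G₁⟩ := exists_gd_power (ops := ops) G (2 * l + 1)
      have h1 := growth_power (ops := ops) G l
      have h2 := total_le_prod (ops := ops) (Q := Q.prod ops P) (Z := power ops P (2 * l + 1))
        (G₀.fr.prod G.fr) (deg_prod G₀.fr G.fr hdeg₀ hdeg) G₁.fr G₁.sy (Gd.prod G₀ G).sy (by
          rw [dim_power]
          exact ⟨(l + 1) * P.X.dim, by push_cast; ring⟩)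
      have h3 : PolIso W ((Q.prod ops P).prod ops (power ops P (2 * l + 1)))
          (Q.prod ops (power ops P (2 * (l + 1)))) := by
        refine (PolIso.assoc Q P (power ops P (2 * l + 1))).trans ((PolIso.refl Q).prod ?_)
        have h4 := power_add W P 0 (2 * l + 1)
        rwa [show 0 + (2 * l + 1) + 1 = 2 * (l + 1) by ring] at h4
      rw [h3.total_eq (isCyc_prod (isCyc_prod G₀.fr.hD G.fr.hD) (isCyc_power G.fr.hD _))
        (isCyc_prod G₀.fr.hD (isCyc_power G.fr.hD _))] at h2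
      calc N ^ (2 * (l + 1)) ≤ total W (power ops P (2 * l + 1)).X
            (power ops P (2 * l + 1)).D * (l + 2) ^ (N ^ 2) := h1
        _ ≤ _ := Nat.mul_le_mul h2 (Nat.pow_le_pow_left (by omega) _)
  · obtain ⟨f₁, G₁⟩ := exists_gd_power (ops := ops) G (2 * m + 1)
    have h1 := growth_power (ops := ops) G m
    have h2 := total_le_prod (ops := ops) (Q := Q) (Z := power ops P (2 * m + 1))
      G₀.fr hdeg₀ G₁.fr G₁.sy G₀.sy (by
        rw [dim_power]
        exact ⟨(m + 1) * P.X.dim, by push_cast; ring⟩)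
    calc N ^ (2 * m + 1) ≤ N ^ (2 * (m + 1)) := Nat.pow_le_pow_right hN (by omega)
      _ ≤ total W (power ops P (2 * m + 1)).X
          (power ops P (2 * m + 1)).D * (m + 2) ^ (N ^ 2) := h1
      _ ≤ _ := Nat.mul_le_mul h2 (Nat.pow_le_pow_left (by omega) _)

end Pool.Agent.N202.HZ
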