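import Pool.Agent.N202.HZ.Aut
import Pool.Agent.N202.HZ.Comb

/-!
# The action of the permutations on the powers
-/

open CategoryTheory AlgebraicGeometry Finset

universe u v

namespace Pool.Agent.N202.HZ

open Module
open Pool.Agent.H914 Pool.Agent.H914.VarClass Pool.Agent.H914.VarClass.Obj
  Pool.Agent.H914.WeilCohomology Pool.Agent.H281R3.HT Pool.Agent.W552 Pool.Agent.W539.Ker
open Pool.Agent.Y129.Half (pw prj pfst psnd tau tau_prj rho PH wb wb_eq exists_hbasis prj_last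
  prj_castSucc finrank_pw)

variable {k : Type u} [Field k] {𝒱 : VarClass k} {ops : CycleOps 𝒱}
  {W : WeilCohomology.{u, v} ops} {X Y Z : 𝒱.Obj} {D : X.Cycles} {f : Module.End W.K (W.H X)}

/-- The sum of the pull-backs of the divisor on a power. -/
noncomputable def dpw (ops : CycleOps 𝒱) {X : 𝒱.Obj} (D : X.Cycles) : ∀ n, (pw X n).Cycles
  | 0 => D
  | n + 1 => ops.pull (fst (pw X n) X) (dpw ops D n) + ops.pull (snd (pw X n) X) D

lemma power_eq (P : Polarized 𝒱) (n : ℕ) : power ops P n = ⟨pw P.X n, dpw ops P.D n⟩ := by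
  induction n with
  | zero => rfl
  | succ n ih =>
    rw [power, ih]
    rfl

lemma exists_gd_pw (G : Gd W X D f) (n : ℕ) : ∃ f', Gd W (pw X n) (dpw ops D n) f' := by
  induction n with
  | zero => exact ⟨f, G⟩
  | succ n ih =>
    obtain ⟨f', G'⟩ := ih
    exact ⟨_, Gd.prod G' G⟩

lemma cl_dpw (W : WeilCohomology.{u, v} ops) (D : X.Cycles) (n : ℕ) :
    W.cl (pw X n) (dpw ops D n) = ∑ i : Fin (n + 1), W.map (prj X n i) (W.cl X D) := by
  induction n with
  | zero =>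
    rw [Fin.sum_univ_one]
    exact (W.map_id X _).symm
  | succ n ih =>
    rw [Fin.sum_univ_castSucc, prj_last]
    have h1 : W.cl (pw X (n + 1)) (dpw ops D (n + 1)) =
        W.map (pfst X n) (W.cl (pw X n) (dpw ops D n)) + W.map (psnd X n) (W.cl X D) := by
      have : W.cl (pw X (n + 1)) (dpw ops D (n + 1)) = W.cl ((pw X n).prod X)
        (ops.pull (fst (pw X n) X) (dpw ops D n) + ops.pull (snd (pw X n) X) D) := rfl
      rw [this, map_add, W.cl_pull, W.cl_pull]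
      rfl
    rw [h1, ih, map_sum]
    congr 1
    apply Finset.sum_congr rfl
    intro i _
    rw [prj_castSucc, W.map_comp]

lemma tau_cl (W : WeilCohomology.{u, v} ops) (D : X.Cycles) (n : ℕ)
    (σ : Equiv.Perm (Fin (n + 1))) : W.map (tau X n σ) (W.cl (pw X n) (dpw ops D n)) =
      W.cl (pw X n) (dpw ops D n) := by
  rw [cl_dpw, map_sum]
  have h1 : ∀ i, W.map (tau X n σ) (W.map (prj X n i) (W.cl X D)) =
      W.map (prj X n (σ i)) (W.cl X D) := by
    intro i
    rw [← W.map_comp, tau_prj]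
  rw [Finset.sum_congr rfl fun i _ => h1 i]
  exact Equiv.sum_comp σ fun i => W.map (prj X n i) (W.cl X D)

/-- A product of homogeneous classes does not depend on the order up to sign. -/
lemma prod_perm_sign {l l' : List (W.H Z)} (h : l.Perm l') (hl : ∀ x ∈ l, ∃ a, x ∈ PH W Z a) :
    ∃ s : ℤ, (s = 1 ∨ s = -1) ∧ l.prod = (s : W.K) • l'.prod := by
  induction h with
  | nil => exact ⟨1, Or.inl rfl, by rw [Int.cast_one, one_smul]⟩
  | cons x _ ih =>
    obtain ⟨s, hs, e⟩ := ih fun y hy => hl y (List.mem_cons_of_mem _ hy)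
    exact ⟨s, hs, by rw [List.prod_cons, List.prod_cons, e, mul_smul_comm]⟩
  | swap x y l =>
    obtain ⟨a, ha⟩ := hl y (by simp)
    obtain ⟨b, hb⟩ := hl x (by simp)
    refine ⟨(-1) ^ (a * b), neg_one_pow_eq_or ℤ _, ?_⟩
    rw [List.prod_cons, List.prod_cons, List.prod_cons, List.prod_cons, ← mul_assoc,
      PH.comm ha hb, smul_mul_assoc, mul_assoc]
    push_cast
    rfl
  | trans h1 _ ih1 ih2 =>
    obtain ⟨s, hs, e⟩ := ih1 hl
    obtain ⟨s', hs', e'⟩ := ih2 fun y hy => hl y (h1.mem_iff.2 hy)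
    refine ⟨s * s', ?_, by rw [e, e', smul_smul, Int.cast_mul]⟩
    rcases hs with rfl | rfl <;> rcases hs' with rfl | rfl <;> simp

section Basis

variable {ι : Type} [Fintype ι] [DecidableEq ι] (e : Basis ι W.K (W.H X))

lemma tau_wb_sign (he : ∀ j, ∃ a, e j ∈ PH W X a) (n : ℕ) (σ : Equiv.Perm (Fin (n + 1)))
    (w : Fin (n + 1) → ι) : ∃ s : ℤ, (s = 1 ∨ s = -1) ∧
      W.map (tau X n σ) (wb e n (w ∘ σ)) = (s : W.K) • wb e n w := by
  rw [wb_eq, wb_eq, map_list_prod, List.map_ofFn]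
  have h1 : (W.map (tau X n σ)) ∘ (fun i => W.map (prj X n i) (e ((w ∘ σ) i))) =
      (fun i => W.map (prj X n i) (e (w i))) ∘ σ := by
    funext i
    rw [Function.comp_apply, Function.comp_apply, ← W.map_comp, tau_prj]
    rfl
  rw [h1]
  refine prod_perm_sign (σ.ofFn_comp_perm _) ?_
  intro x hx
  rw [List.mem_ofFn] at hx
  obtain ⟨i, rfl⟩ := hx
  obtain ⟨a, ha⟩ := he (w (σ i))
  exact ⟨a, PH.map _ ha⟩

/-- **The trace of a permutation.** -/
theorem exists_trace (he : ∀ j, ∃ a, e j ∈ PH W X a) (n : ℕ) (σ : Equiv.Perm (Fin (n + 1))) :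
    ∃ t : ℤ, LinearMap.trace W.K (W.H (pw X n)) (rho W X n σ) = (t : W.K) ∧
      |t| ≤ nfix ι (n + 1) σ := by
  classical
  choose s hs1 hs2 using tau_wb_sign e he n σ
  have h1 : ∀ w, (rho W X n σ) (wb e n w) = (s (w ∘ ⇑σ⁻¹) : W.K) • wb e n (w ∘ ⇑σ⁻¹) := by
    intro w
    have h2 : w = (w ∘ ⇑σ⁻¹) ∘ ⇑σ := by
      funext i
      simp
    have h3 := hs2 (w ∘ ⇑σ⁻¹)
    rw [← h2] at h3
    exact h3
  refine ⟨∑ w : Fin (n + 1) → ι, if w ∘ ⇑σ⁻¹ = w then s (w ∘ ⇑σ⁻¹) else 0, ?_, ?_⟩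
  · rw [LinearMap.trace_eq_matrix_trace W.K (wb e n), Matrix.trace, Int.cast_sum]
    apply Finset.sum_congr rfl
    intro w _
    rw [Matrix.diag_apply, LinearMap.toMatrix_apply, h1, map_smul, Finsupp.smul_apply,
      (wb e n).repr_self, Finsupp.single_apply, smul_eq_mul]
    split_ifs with h
    · rw [mul_one]
    · rw [mul_zero, Int.cast_zero]
  · refine (Finset.abs_sum_le_sum_abs _ _).trans ?_
    have h2 : ∀ w : Fin (n + 1) → ι, |(if w ∘ ⇑σ⁻¹ = w then s (w ∘ ⇑σ⁻¹) else 0 : ℤ)| =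
        if w ∘ ⇑σ⁻¹ = w then 1 else 0 := by
      intro w
      split_ifs with h
      · rcases hs1 (w ∘ ⇑σ⁻¹) with h3 | h3 <;> rw [h3] <;> simp
      · simp
    rw [Finset.sum_congr rfl fun w _ => h2 w, nfix, Fintype.card_subtype, Finset.card_filter]
    push_cast
    exact le_rfl

end Basis

end Pool.Agent.N202.HZ
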