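import Pool.Agent.N202.HZ.Bd

/-!
# The bound for the products `Q × R ^ n`
-/

open CategoryTheory AlgebraicGeometry Finset

universe u v

namespace Pool.Agent.N202.HZ

open Module
open Pool.Agent.H914 Pool.Agent.H914.VarClass Pool.Agent.H914.VarClass.Obj
  Pool.Agent.H914.WeilCohomology Pool.Agent.H281R3.HT Pool.Agent.W552 Pool.Agent.W539.Ker

variable {k : Type u} [Field k] {𝒱 : VarClass k} {ops : CycleOps 𝒱}
  {W : WeilCohomology.{u, v} ops} {X Y Z : 𝒱.Obj} {D : X.Cycles} {f : Module.End W.K (W.H X)}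

lemma prim_fund (hD : X.IsCyc 1 D) : Primitive W X D 0 X.V.fundCycle := by
  refine ⟨X.V.fundCycle_mem, ?_⟩
  rw [cl_divPow, W.cl_fund]
  have h1 := pow_L_mem (mulLeft_isHom (W := W) hD) (W.one_mem X) (X.dim + 1)
  rw [W.gr_eq_bot X _ (by omega)] at h1
  simpa using (Submodule.mem_bot _).1 h1

lemma pairing_fund (W : WeilCohomology.{u, v} ops) (hD : X.IsCyc 1 D) :
    pairing ops X D 0 X.V.fundCycle X.V.fundCycle =
    X.V.degCycle (divPow ops D X.dim X.V.fundCycle) := by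
  have h : ((pairing ops X D 0 X.V.fundCycle X.V.fundCycle : ℚ) : W.K) =
      ((X.V.degCycle (divPow ops D X.dim X.V.fundCycle) : ℚ) : W.K) := by
    rw [pairing_cast (W := W) hD (by omega) X.V.fundCycle_mem X.V.fundCycle_mem, pow_zero,
      one_mul, W.cl_fund, one_mul, mul_zero, Nat.sub_zero, ← W.cl_fund X, ← cl_divPow, W.tr_cl]
    have := divPow_mem (ops := ops) hD X.dim X.V.fundCycle_mem
    rwa [zero_add] at this
  exact_mod_cast h

/-- The square of the `i`-th power of the polarization. -/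
lemma bf_pow_one (F : Fr W X D f) {i : ℕ} (hi : i ≤ X.dim) :
    bf W X D f (((LinearMap.mulLeft W.K (W.cl X D)) ^ i) 1)
      (((LinearMap.mulLeft W.K (W.cl X D)) ^ i) 1) =
      ((i.factorial * ((X.dim - i).factorial : ℚ)⁻¹ *
        X.V.degCycle (divPow ops D X.dim X.V.fundCycle) : ℚ) : W.K) := by
  have h := bf_same F (n := 0) (by omega) (prim_fund (W := W) F.hD) (prim_fund (W := W) F.hD)
    (j := i) (by omega)
  rw [W.cl_fund, pairing_fund W F.hD] at h
  rw [h]
  congr 2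

lemma AS_pow_one (F : Fr W X D f) (i : ℕ) :
    ((LinearMap.mulLeft W.K (W.cl X D)) ^ i) 1 ∈ algClasses W X i := by
  have := (ap_alg F).map_L_pow i (alg_one (W := W) (X := X))
  rwa [zero_add] at this

/-- The two orthogonal classes of opposite signs. -/
lemma exists_Pr (G : Gd W X D f)
    (hdeg : 0 < X.V.degCycle (divPow ops D X.dim X.V.fundCycle)) {i : ℕ} (hi : 2 * i ≤ X.dim)
    (h : HasFamily W X D i (-1) 1) : ∃ a b y z, Pr W X D f a b y z := by
  have F := G.fr
  obtain ⟨z, hz, hneg, -⟩ := h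
  set w := W.cl X (z 0) with hw
  have hwA : w ∈ algClasses W X i := ⟨z 0, (hz 0).1, rfl⟩
  obtain ⟨a, ha, hww⟩ : ∃ a : ℚ, 0 < a ∧ bf W X D f w w = -(a : W.K) := by
    have h1 := bf_same F hi (hz 0) (hz 0) (j := 0) (by omega)
    rw [pow_zero, Module.End.one_apply, ← hw] at h1
    refine ⟨((Nat.factorial 0 : ℕ) * ((X.dim - 2 * i - 0).factorial : ℚ)⁻¹ *
      (-pairing ops X D i (z 0) (z 0))), ?_, ?_⟩
    · have h2 := hneg 0
      rw [neg_one_mul] at h2
      positivity
    · rw [h1]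
      push_cast
      ring
  set y := ((LinearMap.mulLeft W.K (W.cl X D)) ^ i) 1 with hy
  have hyA : y ∈ algClasses W X i := AS_pow_one F i
  obtain ⟨b, hb, hyy⟩ : ∃ b : ℚ, 0 < b ∧ bf W X D f y y = (b : W.K) :=
    ⟨_, by positivity, bf_pow_one F (by omega)⟩
  obtain ⟨c, hc⟩ := F.bf_rat (AS.of hwA) (AS.of hyA)
  have hyw : bf W X D f y w = (c : W.K) := by rw [sy_AS G (AS.of hyA), hc]
  have hbK : (b : W.K) ≠ 0 := by exact_mod_cast hb.ne'
  have hz' : w - ((c / b : ℚ) : W.K) • y ∈ algClasses W X i := alg_sub hwA (alg_smul _ hyA)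
  refine ⟨a + c * c / b, b, y, w - ((c / b : ℚ) : W.K) • y, G, AS.of hyA, AS.of hz',
    ⟨_, Fr.wt_gr (alg_gr hyA), Fr.wt_gr (alg_gr hz')⟩, ?_, hb, hyy, ?_, ?_⟩
  · have := mul_self_nonneg c
    positivity
  · rw [map_sub, map_smul, map_sub, map_smul, LinearMap.sub_apply, LinearMap.sub_apply,
      LinearMap.smul_apply, LinearMap.smul_apply, hww, hyy, hc, hyw]
    push_cast
    simp only [smul_eq_mul]
    field_simp
    ring
  · rw [map_sub, map_smul, hyw, hyy, smul_eq_mul]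
    push_cast
    field_simp
    ring

/-- The product `Q × R × ⋯ × R` with `n` factors `R`. -/
noncomputable def tower (ops : CycleOps 𝒱) (Q R : Polarized 𝒱) : ℕ → Polarized 𝒱
  | 0 => Q
  | n + 1 => (tower ops Q R n).prod ops R

lemma exists_tower {Q R : Polarized 𝒱} {f₀ : Module.End W.K (W.H Q.X)} (F₀ : Fr W Q.X Q.D f₀)
    (S₀ : Sy W Q.X Q.D f₀) {f : Module.End W.K (W.H R.X)} {a b : ℚ} {y z : W.H R.X}
    (P : Pr W R.X R.D f a b y z) (n : ℕ) :
    ∃ f', Fr W (tower ops Q R n).X (tower ops Q R n).D f' ∧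
      Sy W (tower ops Q R n).X (tower ops Q R n).D f' ∧
      ∃ g Θ, Neu W (tower ops Q R n).X (tower ops Q R n).D f' (a * b) g Θ ∧
        finrank W.K (LinearMap.range g) ≤
          finrank W.K (W.H Q.X) * (finrank W.K (W.H R.X) - 2) ^ n := by
  induction n with
  | zero =>
    refine ⟨f₀, F₀, S₀, 1, 0, Neu.base Q.D f₀ _, ?_⟩
    rw [pow_zero, mul_one]
    exact Submodule.finrank_le _
  | succ n ih =>
    obtain ⟨f', F', S', g, Θ, N, hg⟩ := ih
    refine ⟨extSum W f' f, F'.prod P.gd.fr, Sy.prod F' P.gd.fr S' P.gd.sy, _, _, N.step F' P, ?_⟩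
    have h1 := P.finrank
    have h2 := Y129.Half.finrank_extOp (W := W) N.idem P.idem
    calc finrank W.K (LinearMap.range (extOp W g (prR W R.D f a b y z))) =
        finrank W.K (LinearMap.range g) *
          finrank W.K (LinearMap.range (prR W R.D f a b y z)) := h2
      _ ≤ (finrank W.K (W.H Q.X) * (finrank W.K (W.H R.X) - 2) ^ n) *
          (finrank W.K (W.H R.X) - 2) := Nat.mul_le_mul hg (by omega)
      _ = _ := by rw [pow_succ, mul_assoc]

/-- **The bound for the signatures of products.** -/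
theorem imbalance_tower_le {Q R : Polarized 𝒱} {f₀ : Module.End W.K (W.H Q.X)}
    (G₀ : Gd W Q.X Q.D f₀) {f : Module.End W.K (W.H R.X)} (G : Gd W R.X R.D f)
    (hdeg : 0 < R.X.V.degCycle (divPow ops R.D R.X.dim R.X.V.fundCycle)) {i : ℕ}
    (hi : 2 * i ≤ R.X.dim) (h : HasFamily W R.X R.D i (-1) 1) (n : ℕ) :
    imbalance W (tower ops Q R n).X (tower ops Q R n).D ≤
      finrank W.K (W.H Q.X) * (finrank W.K (W.H R.X) - 2) ^ n := by
  obtain ⟨a, b, y, z, P⟩ := exists_Pr G hdeg hi h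
  obtain ⟨f', F', S', g, Θ, N, hg⟩ := exists_tower G₀.fr G₀.sy P n
  exact (imbalance_le F' S' N (mul_pos P.ha P.hb)).trans hg

end Pool.Agent.N202.HZ
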